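import Pool.Agent.Helper160.MF.Defs

set_option autoImplicit false
open MeasureTheory Set Metric

namespace Pool.Agent.Helper567.MF

open Pool.Agent.Helper160.MF

theorem lintegral_comp_smul_Eu (d : ℕ) (R : ℝ) (hR : 0 < R) (F : Eu d → ENNReal) :
    ∫⁻ y, F (R • y) = ENNReal.ofReal ((R ^ d)⁻¹) * ∫⁻ y, F y := by
  have h1 : MeasurableEmbedding (fun y : Eu d => R • y) :=
    (Homeomorph.smulOfNeZero R hR.ne').measurableEmbedding
  rw [← h1.lintegral_map (μ := volume) F]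
  rw [Measure.map_addHaar_smul volume hR.ne', lintegral_smul_measure]
  simp only [finrank_euclideanSpace, Fintype.card_fin, smul_eq_mul]
  rw [abs_of_pos (by positivity)]

theorem lintegral_eq_scale (d : ℕ) (R : ℝ) (hR : 0 < R) (F : Eu d → ENNReal) :
    ∫⁻ y, F y = ENNReal.ofReal (R ^ d) * ∫⁻ y, F (R • y) := by
  rw [lintegral_comp_smul_Eu d R hR, ← mul_assoc, ← ENNReal.ofReal_mul (by positivity),
    mul_inv_cancel₀ (by positivity), ENNReal.ofReal_one, one_mul]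

theorem ga_scale (d : ℕ) (R t : ℝ) (hR : 0 < R) (ht : 0 < t) (u : Eu d) :
    ga d t u = R ^ d * ga d (R ^ 2 * t) (R • u) := by
  unfold ga
  have h1 : (2 * Real.pi * (R ^ 2 * t)) ^ (-(d : ℝ) / 2) =
      (R ^ d)⁻¹ * (2 * Real.pi * t) ^ (-(d : ℝ) / 2) := by
    rw [show 2 * Real.pi * (R ^ 2 * t) = R ^ 2 * (2 * Real.pi * t) by ring,
      Real.mul_rpow (by positivity) (by positivity)]
    congr 1
    rw [show (R ^ 2 : ℝ) = R ^ (2 : ℝ) by norm_cast, ← Real.rpow_mul hR.le,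
      show (2 : ℝ) * (-(d : ℝ) / 2) = -(d : ℝ) by ring, Real.rpow_neg hR.le, Real.rpow_natCast]
  rw [h1, norm_smul, Real.norm_of_nonneg hR.le]
  have h2 : -(R * ‖u‖) ^ 2 / (2 * (R ^ 2 * t)) = -‖u‖ ^ 2 / (2 * t) := by
    field_simp
  rw [h2]
  have : (R ^ d : ℝ) ≠ 0 := by positivity
  field_simp

theorem shell_scale (d : ℕ) (R r : ℝ) (hR : 0 < R) (x : Eu d) :
    R • x ∈ shell d (r * R) ↔ x ∈ shell d r := by
  unfold shell
  simp only [mem_ofPred_eq, norm_smul, Real.norm_of_nonneg hR.le]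
  constructor
  · rintro ⟨h1, h2⟩
    constructor <;> nlinarith
  · rintro ⟨h1, h2⟩
    constructor <;> nlinarith

theorem volume_shell_scale (d : ℕ) (R r : ℝ) (hR : 0 < R) :
    volume (shell d (r * R)) = ENNReal.ofReal (R ^ d) * volume (shell d r) := by
  have h := Measure.addHaar_preimage_smul (volume : Measure (Eu d)) hR.ne' (shell d (r * R))
  have h2 : ((R • ·) ⁻¹' (shell d (r * R)) : Set (Eu d)) = shell d r := by
    ext x
    simp only [mem_preimage]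
    exact shell_scale d R r hR x
  rw [h2] at h
  simp only [finrank_euclideanSpace, Fintype.card_fin] at h
  rw [abs_of_pos (by positivity)] at h
  rw [h, ← mul_assoc, ← ENNReal.ofReal_mul (by positivity),
    mul_inv_cancel₀ (by positivity), ENNReal.ofReal_one, one_mul]

theorem bs_scale (d : ℕ) (R r : ℝ) (hR : 0 < R) (x : Eu d) :
    bs d r x = ENNReal.ofReal (R ^ d) * bs d (r * R) (R • x) := by
  unfold bs
  by_cases hx : x ∈ shell d r
  · rw [indicator_of_mem hx, indicator_of_mem ((shell_scale d R r hR x).2 hx),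
      volume_shell_scale d R r hR, ENNReal.mul_inv (by left; simp; positivity) (by left; simp),
      ← mul_assoc, ENNReal.mul_inv_cancel (by simp; positivity) (by simp), one_mul]
  · rw [indicator_of_notMem hx, indicator_of_notMem (fun h => hx ((shell_scale d R r hR x).1 h)),
      mul_zero]

theorem Pk_scale (d : ℕ) (R : ℝ) (hR : 0 < R) (x z : Eu d) :
    Pk d (R • x) (R • z) = Pk d x z := by
  unfold Pk
  rw [← smul_sub, norm_smul, norm_smul, norm_smul, Real.norm_of_nonneg hR.le]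
  rw [mul_pow R ‖x‖ d, mul_pow R ‖x - z‖ d]
  have e1 : (R ^ d * ‖x‖ ^ d) * ((R * ‖x‖) ^ 2 - (R * ‖z‖) ^ 2) =
      (R ^ d * R ^ 2) * (‖x‖ ^ d * (‖x‖ ^ 2 - ‖z‖ ^ 2)) := by ring
  have e2 : (R * ‖x‖) ^ 2 * (R ^ d * ‖x - z‖ ^ d) = (R ^ d * R ^ 2) * (‖x‖ ^ 2 * ‖x - z‖ ^ d) := by
    ring
  rw [e1, e2, mul_div_mul_left _ _ (by positivity)]

theorem tr_scale (d : ℕ) (R ε : ℝ) (hR : 0 < R) (y z x : Eu d) :
    ENNReal.ofReal (R ^ d) * tr d (ε * R) R (R • y) (R • z) (R • x) = tr d ε 1 y z x := by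
  unfold tr
  rw [← smul_sub, ← smul_sub, Pk_scale d R hR, bs_scale d R 1 hR (x - y), one_mul]
  have h : (shell d (ε * R)).indicator (fun _ => (1 : ENNReal)) (R • (z - y)) =
      (shell d ε).indicator (fun _ => (1 : ENNReal)) (z - y) := by
    by_cases hx : z - y ∈ shell d ε
    · rw [indicator_of_mem hx, indicator_of_mem ((shell_scale d R ε hR _).2 hx)]
    · rw [indicator_of_notMem hx, indicator_of_notMem (fun h => hx ((shell_scale d R ε hR _).1 h))]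
  rw [h]
  ring

/-- the estimate at scale `R` from the one at scale `1` -/
theorem ML_scaled_of
    (near_bound : ∃ C : ℝ, 0 < C ∧ ∀ d : ℕ, 16 ≤ d → ∀ ε : ℝ, 0 < ε → ε ≤ 1 / 64 →
      ∀ x y z : Eu d, tr d ε 1 y z x ≤ ENNReal.ofReal (C * Ak d ε x y z))
    (ML_unit : ∃ C : ℝ, 0 < C ∧ ∀ d : ℕ, 16 ≤ d → ∀ ε : ℝ, 0 < ε → ε ≤ 1 / 64 →
      ∀ (lam : ENNReal), lam ≠ ⊤ → ∀ P : Eu d → Eu d → ENNReal,
      Measurable (fun q : Eu d × Eu d => P q.1 q.2) →
      (∀ y z, P y z ≠ 0 → ‖z - y‖ ≤ ε) → (∀ y z, P y z ≠ ⊤) →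
      (∀ z, ∫⁻ y, P y z ≤ lam) → (∫⁻ y, ∫⁻ z, P y z ≠ ⊤) →
      ∃ w : Eu d → ENNReal, Measurable w ∧
        (∀ x, ∫⁻ y, ∫⁻ z, P y z * ENNReal.ofReal (Ak d ε x y z) ≤
          ENNReal.ofReal C * (∫⁻ z, (∫⁻ y, P y z) * ENNReal.ofReal (ga d (1 / d) (x - z))) + w x) ∧
        ∫⁻ x, w x ^ 2 ≤ ENNReal.ofReal (C * (ε + 1 / d)) * lam * ∫⁻ y, ∫⁻ z, P y z) :
    ∃ C : ℝ, 0 < C ∧ ∀ d : ℕ, 16 ≤ d → ∀ ε : ℝ, 0 < ε → ε ≤ 1 / 64 →
    ∀ R : ℝ, 0 < R → ∀ (lam : ENNReal), lam ≠ ⊤ → ∀ P : Eu d → Eu d → ENNReal,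
    Measurable (fun q : Eu d × Eu d => P q.1 q.2) →
    (∀ y z, P y z ≠ 0 → z - y ∈ shell d (ε * R)) → (∀ y z, P y z ≠ ⊤) →
    (∀ z, ∫⁻ y, P y z ≤ lam) → (∫⁻ y, ∫⁻ z, P y z ≠ ⊤) →
    ∃ w : Eu d → ENNReal, Measurable w ∧
      (∀ x, ∫⁻ y, ∫⁻ z, P y z * tr d (ε * R) R y z x ≤
        ENNReal.ofReal C * (∫⁻ z, (∫⁻ y, P y z) * ENNReal.ofReal (ga d (R ^ 2 / d) (x - z))) + w x) ∧
      ∫⁻ x, w x ^ 2 ≤ ENNReal.ofReal (C * (ε + 1 / d)) * lam * ∫⁻ y, ∫⁻ z, P y z := by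
  obtain ⟨C0, hC0, hnear⟩ := near_bound
  obtain ⟨C1, hC1, hunit⟩ := ML_unit
  refine ⟨C0 * C1 + C0 ^ 2 * C1, by positivity, ?_⟩
  intro d hd ε hε hε64 R hR lam hlam P hPm hPsupp hPtop hPmarg hPint
  have hdpos : (0 : ℝ) < d := by
    have : (16 : ℝ) ≤ d := by exact_mod_cast hd
    linarith
  have hRd : (0 : ℝ) < R ^ d := by positivity
  set P' : Eu d → Eu d → ENNReal := fun y z => ENNReal.ofReal (R ^ d) * P (R • y) (R • z) with hP'
  have hP'm : Measurable (fun q : Eu d × Eu d => P' q.1 q.2) := by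
    have hm : Measurable (fun q : Eu d × Eu d => ((R • q.1, R • q.2) : Eu d × Eu d)) := by fun_prop
    exact (hPm.comp hm).const_mul _
  have hP'supp : ∀ y z, P' y z ≠ 0 → ‖z - y‖ ≤ ε := by
    intro y z h
    have h1 : P (R • y) (R • z) ≠ 0 := fun h0 => h (by simp [hP', h0])
    have h2 := hPsupp _ _ h1
    rw [← smul_sub, shell_scale d R ε hR] at h2
    exact h2.2.le
  have hP'top : ∀ y z, P' y z ≠ ⊤ := fun y z => ENNReal.mul_ne_top (by simp) (hPtop _ _)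
  have hinner : ∀ z, ∫⁻ y, P' y z = ∫⁻ y, P y (R • z) := by
    intro z
    simp only [hP']
    rw [lintegral_const_mul' _ _ (by simp)]
    exact (lintegral_eq_scale d R hR (fun y => P y (R • z))).symm
  have hP'marg : ∀ z, ∫⁻ y, P' y z ≤ lam := fun z => by
    rw [hinner z]; exact hPmarg _
  have htot : ∫⁻ y, ∫⁻ z, P y z = ENNReal.ofReal (R ^ d) * ∫⁻ y, ∫⁻ z, P' y z := by
    rw [lintegral_eq_scale d R hR (fun y => ∫⁻ z, P y z)]
    congr 1
    refine lintegral_congr fun y => ?_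
    rw [lintegral_eq_scale d R hR (fun z => P (R • y) z)]
    simp only [hP']
    rw [lintegral_const_mul' _ _ (by simp)]
  have hP'int : ∫⁻ y, ∫⁻ z, P' y z ≠ ⊤ := by
    intro h
    rw [h, ENNReal.mul_top (by simp; positivity)] at htot
    exact hPint htot
  obtain ⟨w, hwm, hw1, hw2⟩ := hunit d hd ε hε hε64 lam hlam P' hP'm hP'supp hP'top hP'marg hP'int
  refine ⟨fun x => ENNReal.ofReal C0 * w (R⁻¹ • x), ?_, ?_, ?_⟩
  · exact (hwm.comp (by fun_prop : Measurable (fun x : Eu d => R⁻¹ • x))).const_mul _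
  · intro x
    set x' : Eu d := R⁻¹ • x with hx'
    have hxx : x = R • x' := by rw [hx', smul_inv_smul₀ hR.ne']
    have h1 : ∫⁻ y, ∫⁻ z, P y z * tr d (ε * R) R y z x =
        ∫⁻ y, ∫⁻ z, P' y z * tr d ε 1 y z x' := by
      rw [lintegral_eq_scale d R hR (fun y => ∫⁻ z, P y z * tr d (ε * R) R y z x)]
      rw [← lintegral_const_mul' _ _ (by simp)]
      refine lintegral_congr fun y => ?_
      rw [lintegral_eq_scale d R hR (fun z => P (R • y) z * tr d (ε * R) R (R • y) z x)]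
      rw [← lintegral_const_mul' _ _ (by simp), ← lintegral_const_mul' _ _ (by simp)]
      refine lintegral_congr fun z => ?_
      rw [← tr_scale d R ε hR, ← hxx]
      simp only [hP']
      ring
    rw [h1]
    have h2 : ∫⁻ y, ∫⁻ z, P' y z * tr d ε 1 y z x' ≤
        ENNReal.ofReal C0 * ∫⁻ y, ∫⁻ z, P' y z * ENNReal.ofReal (Ak d ε x' y z) := by
      rw [← lintegral_const_mul' _ _ (by simp)]
      refine lintegral_mono fun y => ?_
      rw [← lintegral_const_mul' _ _ (by simp)]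
      refine lintegral_mono fun z => ?_
      have := hnear d hd ε hε hε64 x' y z
      rw [ENNReal.ofReal_mul hC0.le] at this
      calc P' y z * tr d ε 1 y z x' ≤ P' y z * (ENNReal.ofReal C0 * ENNReal.ofReal (Ak d ε x' y z)) := by
            gcongr
        _ = _ := by ring
    refine h2.trans ?_
    have h3 : ∫⁻ z, (∫⁻ y, P' y z) * ENNReal.ofReal (ga d (1 / d) (x' - z)) =
        ∫⁻ z, (∫⁻ y, P y z) * ENNReal.ofReal (ga d (R ^ 2 / d) (x - z)) := by
      rw [lintegral_eq_scale d R hR (fun z => (∫⁻ y, P y z) * ENNReal.ofReal (ga d (R ^ 2 / d) (x - z)))]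
      rw [← lintegral_const_mul' _ _ (by simp)]
      refine lintegral_congr fun z => ?_
      rw [hinner z, ga_scale d R (1 / d) hR (by positivity) (x' - z), ENNReal.ofReal_mul hRd.le,
        smul_sub, ← hxx, show R ^ 2 * (1 / (d : ℝ)) = R ^ 2 / d by ring]
      ring
    calc ENNReal.ofReal C0 * ∫⁻ y, ∫⁻ z, P' y z * ENNReal.ofReal (Ak d ε x' y z)
        ≤ ENNReal.ofReal C0 * (ENNReal.ofReal C1 *
          (∫⁻ z, (∫⁻ y, P' y z) * ENNReal.ofReal (ga d (1 / d) (x' - z))) + w x') := by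
          gcongr
          exact hw1 x'
      _ = ENNReal.ofReal (C0 * C1) *
          (∫⁻ z, (∫⁻ y, P y z) * ENNReal.ofReal (ga d (R ^ 2 / d) (x - z))) +
            ENNReal.ofReal C0 * w x' := by
          rw [h3, mul_add, ENNReal.ofReal_mul hC0.le]
          ring
      _ ≤ _ := by
          gcongr
          nlinarith [mul_pos (pow_pos hC0 2) hC1]
  · rw [lintegral_eq_scale d R hR (fun x => (ENNReal.ofReal C0 * w (R⁻¹ • x)) ^ 2)]
    have h1 : ∀ x : Eu d, (ENNReal.ofReal C0 * w (R⁻¹ • (R • x))) ^ 2 =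
        ENNReal.ofReal C0 ^ 2 * w x ^ 2 := by
      intro x
      rw [inv_smul_smul₀ hR.ne', mul_pow]
    simp only [h1]
    rw [lintegral_const_mul' _ _ (by simp)]
    calc ENNReal.ofReal (R ^ d) * (ENNReal.ofReal C0 ^ 2 * ∫⁻ x, w x ^ 2)
        ≤ ENNReal.ofReal (R ^ d) * (ENNReal.ofReal C0 ^ 2 *
          (ENNReal.ofReal (C1 * (ε + 1 / d)) * lam * ∫⁻ y, ∫⁻ z, P' y z)) := by
          gcongr
      _ = ENNReal.ofReal (C0 ^ 2 * (C1 * (ε + 1 / d))) * lam * ∫⁻ y, ∫⁻ z, P y z := by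
          rw [htot, ENNReal.ofReal_mul (by positivity : (0:ℝ) ≤ C0 ^ 2),
            ENNReal.ofReal_pow hC0.le]
          ring
      _ ≤ _ := by
          have h5 : C0 ^ 2 * (C1 * (ε + 1 / d)) ≤ (C0 * C1 + C0 ^ 2 * C1) * (ε + 1 / d) := by
            have h6 : 0 < C0 * C1 * (ε + 1 / d) := by positivity
            have h7 : (C0 * C1 + C0 ^ 2 * C1) * (ε + 1 / d) - C0 ^ 2 * (C1 * (ε + 1 / d)) =
              C0 * C1 * (ε + 1 / d) := by ring
            linarith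
          exact mul_le_mul' (mul_le_mul' (ENNReal.ofReal_le_ofReal h5) le_rfl) le_rfl

end Pool.Agent.Helper567.MF

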