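import Mathlib

/-!
Poisson kernel facts on `R^n` (normalisation and Chapman-Kolmogorov property of the exit
distributions from balls, for arbitrary radial weights).  Lemmas solved through the job market by
helper528, helper979, helper679, helper651, helper2, helper571, helper42; assembled by helper567.
-/



set_option autoImplicit false
open MeasureTheory Filter Topology Set

namespace Pool.MFPoisson

/-- Poisson type kernel `K z w = (|w|^2 - |z|^2) / (|w|^2 |w - z|^n)` on `R^n`. -/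
noncomputable def K {n : ℕ} (z w : EuclideanSpace ℝ (Fin n)) : ℝ :=
  (‖w‖ ^ 2 - ‖z‖ ^ 2) / (‖w‖ ^ 2 * ‖w - z‖ ^ n)

/-- `F` is twice differentiable at `z` along all coordinate lines and the sum of the second
derivatives is `L`. -/
def LH {n : ℕ} (F : EuclideanSpace ℝ (Fin n) → ℝ) (z : EuclideanSpace ℝ (Fin n)) (L : ℝ) : Prop :=
  ∃ F1 : Fin n → ℝ → ℝ, ∃ c : Fin n → ℝ,
    (∀ i, ∀ᶠ s in 𝓝 (0:ℝ),
      HasDerivAt (fun s : ℝ => F (z + s • EuclideanSpace.single i (1:ℝ))) (F1 i s) s) ∧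
    (∀ i, HasDerivAt (F1 i) (c i) 0) ∧ ∑ i, c i = L

section J1
private theorem inner_e {n : ℕ} (y : EuclideanSpace ℝ (Fin n)) (i : Fin n) (s : ℝ) :
    inner ℝ y (s • EuclideanSpace.single i (1:ℝ)) = s * y i := by
  rw [inner_smul_right, EuclideanSpace.inner_single_right]
  simp

private theorem norm_e {n : ℕ} (i : Fin n) (s : ℝ) :
    ‖s • (EuclideanSpace.single i (1:ℝ) : EuclideanSpace ℝ (Fin n))‖ ^ 2 = s ^ 2 := by
  rw [norm_smul, PiLp.norm_single]
  simp

/-- the kernel `z ↦ K z x` is harmonic away from `x` (line second derivatives) -/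
theorem lh_K {n : ℕ} (z x : EuclideanSpace ℝ (Fin n)) (h : z ≠ x) :
    LH (fun z => K z x) z 0 := by
  set D0 : ℝ := ‖x - z‖ ^ 2 with hD0
  have hD0pos : 0 < D0 := by
    have : 0 < ‖x - z‖ := norm_pos_iff.2 (sub_ne_zero.2 (Ne.symm h))
    positivity
  set A : ℝ := ‖x‖ ^ 2 - ‖z‖ ^ 2 with hA
  set p : ℝ := -((n : ℝ) / 2) with hp
  set X : ℝ := ‖x‖ ^ 2 with hX
  let a : Fin n → ℝ → ℝ := fun i s => A - 2 * s * z i - s ^ 2
  let D : Fin n → ℝ → ℝ := fun i s => D0 - 2 * s * (x i - z i) + s ^ 2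
  have ha : ∀ i s, HasDerivAt (a i) (-2 * z i - 2 * s) s := by
    intro i s
    refine ((((hasDerivAt_const s A).sub (((hasDerivAt_id s).const_mul 2).mul_const (z i)))).sub
        ((hasDerivAt_id s).pow 2)).congr_deriv ?_
    simp
  have hD : ∀ i s, HasDerivAt (D i) (-2 * (x i - z i) + 2 * s) s := by
    intro i s
    refine ((((hasDerivAt_const s D0).sub
        (((hasDerivAt_id s).const_mul 2).mul_const (x i - z i)))).add
          ((hasDerivAt_id s).pow 2)).congr_deriv ?_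
    simp
  have hD0' : ∀ i, D i 0 = D0 := fun i => by simp [D]
  have ha0 : ∀ i, a i 0 = A := fun i => by simp [a]
  have hev : ∀ i, ∀ᶠ s in 𝓝 (0:ℝ), 0 < D i s := by
    intro i
    have : ContinuousAt (D i) 0 := (hD i 0).continuousAt
    exact this.eventually (lt_mem_nhds (by rw [hD0' i]; exact hD0pos))
  have hnorm : ∀ i s, ‖x - (z + s • EuclideanSpace.single i (1:ℝ))‖ ^ 2 = D i s := by
    intro i s
    rw [← sub_sub, norm_sub_sq_real, inner_e, norm_e]
    simp only [D, PiLp.sub_apply, hD0]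
    ring
  have hK : ∀ i s, 0 < D i s → K (z + s • EuclideanSpace.single i (1:ℝ)) x =
      a i s * (D i s) ^ p / X := by
    intro i s hs
    unfold K
    have e1 : ‖x - (z + s • EuclideanSpace.single i (1:ℝ))‖ ^ n = (D i s) ^ ((n : ℝ) / 2) := by
      rw [← hnorm i s, ← Real.rpow_natCast, ← Real.rpow_natCast, ← Real.rpow_mul (norm_nonneg _)]
      congr 1
      push_cast
      ring
    have e2 : ‖x‖ ^ 2 - ‖z + s • EuclideanSpace.single i (1:ℝ)‖ ^ 2 = a i s := by
      rw [norm_add_sq_real, inner_e, norm_e]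
      simp only [a, hA]
      ring
    rw [e1, e2, hp, Real.rpow_neg hs.le, ← hX, div_mul_eq_div_div, div_eq_mul_inv, div_eq_mul_inv,
      div_eq_mul_inv]
    ring
  refine ⟨fun i s => ((-2 * z i - 2 * s) * (D i s) ^ p +
      a i s * ((-2 * (x i - z i) + 2 * s) * p * (D i s) ^ (p - 1))) / X,
    fun i => (-2 * D0 ^ p + 8 * p * (z i * (x i - z i)) * D0 ^ (p - 1) +
      4 * A * p * (p - 1) * (x i - z i) ^ 2 * D0 ^ (p - 2) + 2 * A * p * D0 ^ (p - 1)) / X,
    ?_, ?_, ?_⟩
  · intro i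
    filter_upwards [(hev i).eventually_nhds] with s hs
    have hs0 : 0 < D i s := hs.self_of_nhds
    have h1 := ((ha i s).mul ((hD i s).rpow_const (p := p) (Or.inl hs0.ne'))).div_const X
    refine h1.congr_of_eventuallyEq ?_
    filter_upwards [hs] with t ht
    simp only [Pi.mul_apply]
    exact hK i t ht
  · intro i
    have k1 : HasDerivAt (fun s : ℝ => -2 * z i - 2 * s) (-2) 0 := by
      refine ((hasDerivAt_const (0:ℝ) (-2 * z i)).sub
        ((hasDerivAt_id (0:ℝ)).const_mul 2)).congr_deriv ?_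
      simp
    have k2 : HasDerivAt (fun s : ℝ => -2 * (x i - z i) + 2 * s) 2 0 := by
      refine ((hasDerivAt_const (0:ℝ) (-2 * (x i - z i))).add
        ((hasDerivAt_id (0:ℝ)).const_mul 2)).congr_deriv ?_
      simp
    have hne : D i 0 ≠ 0 := by rw [hD0' i]; exact hD0pos.ne'
    have k3 := (hD i 0).rpow_const (p := p) (Or.inl hne)
    have k4 := (hD i 0).rpow_const (p := p - 1) (Or.inl hne)
    have h1 := ((k1.mul k3).add ((ha i 0).mul ((k2.mul_const p).mul k4))).div_const X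
    refine h1.congr_deriv ?_
    simp only [Pi.mul_apply, hD0', ha0]
    rw [show p - 1 - 1 = p - 2 by ring]
    ring
  · rw [← Finset.sum_div]
    have s1 : ∑ i, (z i * (x i - z i)) = inner ℝ z (x - z) := by
      rw [PiLp.inner_apply]
      refine Finset.sum_congr rfl fun i _ => ?_
      simp [mul_comm]
    have s2 : ∑ i, (x i - z i) ^ 2 = D0 := by
      rw [hD0, EuclideanSpace.norm_sq_eq]
      refine Finset.sum_congr rfl fun i _ => ?_
      simp
    have s3 : ∑ i, (-2 * D0 ^ p + 8 * p * (z i * (x i - z i)) * D0 ^ (p - 1) +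
      4 * A * p * (p - 1) * (x i - z i) ^ 2 * D0 ^ (p - 2) + 2 * A * p * D0 ^ (p - 1)) =
      -2 * n * D0 ^ p + 8 * p * inner ℝ z (x - z) * D0 ^ (p - 1) +
      4 * A * p * (p - 1) * D0 * D0 ^ (p - 2) + 2 * A * p * n * D0 ^ (p - 1) := by
      rw [Finset.sum_add_distrib, Finset.sum_add_distrib, Finset.sum_add_distrib, ← s1, ← s2]
      simp only [← Finset.sum_mul, ← Finset.mul_sum, Finset.sum_const, Finset.card_univ,
        Fintype.card_fin, nsmul_eq_mul]
      ring
    have s4 : D0 ^ p = D0 * D0 ^ (p - 1) := by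
      have := Real.rpow_add hD0pos 1 (p - 1)
      rw [Real.rpow_one] at this
      rw [← this]
      congr 1; ring
    have s5 : D0 * D0 ^ (p - 2) = D0 ^ (p - 1) := by
      have := Real.rpow_add hD0pos 1 (p - 2)
      rw [Real.rpow_one] at this
      rw [← this]
      congr 1; ring
    have s6 : inner ℝ z (x - z) = inner ℝ z x - ‖z‖ ^ 2 := by
      rw [inner_sub_right, real_inner_self_eq_norm_sq]
    have s7 : D0 = ‖x‖ ^ 2 - 2 * inner ℝ z x + ‖z‖ ^ 2 := by
      rw [hD0, norm_sub_sq_real, real_inner_comm]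
    rw [s3, s4, mul_assoc (4 * A * p * (p - 1)) D0, s5, s6, hp]
    have s8 : -2 * n * (D0 * D0 ^ (-((n:ℝ) / 2) - 1)) + 8 * -((n:ℝ) / 2) *
        (inner ℝ z x - ‖z‖ ^ 2) * D0 ^ (-((n:ℝ) / 2) - 1) +
        4 * A * -((n:ℝ) / 2) * (-((n:ℝ) / 2) - 1) * D0 ^ (-((n:ℝ) / 2) - 1) +
        2 * A * -((n:ℝ) / 2) * n * D0 ^ (-((n:ℝ) / 2) - 1) =
        D0 ^ (-((n:ℝ) / 2) - 1) * (2 * n * (A - D0 - 2 * (inner ℝ z x - ‖z‖ ^ 2))) := by ring
    rw [s8]
    have s9 : A - D0 - 2 * (inner ℝ z x - ‖z‖ ^ 2) = 0 := by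
      rw [hA, s7, hX]; ring
    rw [s9]
    simp
end J1

section J2
private theorem second_le {f F1 : ℝ → ℝ} {c : ℝ} (h1 : ∀ᶠ s in 𝓝 (0:ℝ), HasDerivAt f (F1 s) s)
    (h2 : HasDerivAt F1 c 0) (hm : IsLocalMax f 0) : c ≤ 0 := by
  by_contra hc
  push Not at hc
  have e1 : deriv f =ᶠ[𝓝 0] F1 := h1.mono (fun s hs => hs.deriv)
  have e2 : deriv (deriv f) 0 = c := by rw [e1.deriv_eq, h2.deriv]
  have e3 : deriv f 0 = 0 := hm.deriv_eq_zero
  have e4 : IsLocalMin f 0 := isLocalMin_of_deriv_deriv_pos (by rw [e2]; exact hc) e3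
    h1.self_of_nhds.continuousAt
  have e5 : f =ᶠ[𝓝 0] fun _ => f 0 := by
    filter_upwards [hm, e4] with x hx hy using le_antisymm hx hy
  have e6 : deriv f =ᶠ[𝓝 0] fun _ => 0 := by
    have := e5.deriv
    simpa using this
  have e7 : deriv (deriv f) 0 = 0 := by rw [e6.deriv_eq]; simp
  rw [e7] at e2
  exact absurd e2.symm hc.ne'

private theorem norm_line {n : ℕ} (z : EuclideanSpace ℝ (Fin n)) (i : Fin n) (s : ℝ) :
    ‖z + s • EuclideanSpace.single i (1:ℝ)‖ ^ 2 = ‖z‖ ^ 2 + 2 * s * z i + s ^ 2 := by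
  rw [norm_add_sq_real, inner_smul_right, norm_smul, EuclideanSpace.norm_single,
    EuclideanSpace.inner_single_right]
  simp
  ring

private theorem max_le {n : ℕ} (hn : 0 < n) (F : EuclideanSpace ℝ (Fin n) → ℝ)
    (hc : ContinuousOn F (Metric.ball 0 1))
    (hL : ∀ z ∈ Metric.ball (0 : EuclideanSpace ℝ (Fin n)) 1, LH F z 0)
    (hb : ∀ ε : ℝ, 0 < ε → ∃ ρ : ℝ, ρ < 1 ∧ ∀ z : EuclideanSpace ℝ (Fin n), ρ ≤ ‖z‖ → ‖z‖ < 1 →
      |F z| ≤ ε) :
    ∀ z ∈ Metric.ball (0 : EuclideanSpace ℝ (Fin n)) 1, F z ≤ 0 := by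
  intro z0 hz0
  by_contra hpos
  push Not at hpos
  have hz0' : ‖z0‖ < 1 := by simpa using hz0
  obtain ⟨e, he⟩ : ∃ e, e = F z0 / 4 := ⟨_, rfl⟩
  have he0 : 0 < e := by rw [he]; linarith
  obtain ⟨ρ, hρ1, hρ⟩ := hb e he0
  have hzρ : ‖z0‖ < ρ := by
    by_contra h
    push Not at h
    have := hρ z0 h hz0'
    have := (abs_le.1 this).2
    linarith
  have hsub : Metric.closedBall (0 : EuclideanSpace ℝ (Fin n)) ρ ⊆ Metric.ball 0 1 :=
    Metric.closedBall_subset_ball hρ1
  have hGc : ContinuousOn (fun z : EuclideanSpace ℝ (Fin n) => F z + e * ‖z‖ ^ 2)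
      (Metric.closedBall 0 ρ) := by
    apply ContinuousOn.add (hc.mono hsub)
    apply Continuous.continuousOn
    fun_prop
  obtain ⟨z1, hz1, hmax⟩ := (isCompact_closedBall (0 : EuclideanSpace ℝ (Fin n)) ρ).exists_isMaxOn
    ⟨z0, by simpa using hzρ.le⟩ hGc
  have hz1' : ‖z1‖ ≤ ρ := by simpa using hz1
  have hG1 : F z0 ≤ F z1 + e * ‖z1‖ ^ 2 := by
    have h := hmax (show z0 ∈ Metric.closedBall (0 : EuclideanSpace ℝ (Fin n)) ρ by
      simpa using hzρ.le)
    simp only [Set.mem_ofPred_eq] at h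
    have : 0 ≤ e * ‖z0‖ ^ 2 := by positivity
    linarith
  have hz1ρ : ‖z1‖ < ρ := by
    by_contra h
    push Not at h
    have h1 : ‖z1‖ < 1 := lt_of_le_of_lt hz1' hρ1
    have h2 := (abs_le.1 (hρ z1 h h1)).2
    have h3 : ‖z1‖ ^ 2 ≤ 1 := by nlinarith [norm_nonneg z1]
    nlinarith
  have hz1b : z1 ∈ Metric.ball (0 : EuclideanSpace ℝ (Fin n)) 1 := hsub hz1
  have hloc : IsLocalMax (fun z : EuclideanSpace ℝ (Fin n) => F z + e * ‖z‖ ^ 2) z1 := by
    apply hmax.isLocalMax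
    apply Metric.closedBall_mem_nhds_of_mem
    simpa using hz1ρ
  obtain ⟨F1, c, h1, h2, h3⟩ := hL z1 hz1b
  have key : ∀ i, c i + 2 * e ≤ 0 := by
    intro i
    have hm : IsLocalMax (fun s : ℝ => F (z1 + s • EuclideanSpace.single i (1:ℝ))
        + e * (‖z1‖ ^ 2 + 2 * s * z1 i + s ^ 2)) 0 := by
      have hcont : ContinuousAt (fun s : ℝ => z1 + s • EuclideanSpace.single i (1:ℝ)) 0 := by
        fun_prop
      have hloc' : IsLocalMax (fun z : EuclideanSpace ℝ (Fin n) => F z + e * ‖z‖ ^ 2)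
          ((fun s : ℝ => z1 + s • EuclideanSpace.single i (1:ℝ)) 0) := by
        simpa using hloc
      have := IsMaxFilter.comp_tendsto
        (g := fun s : ℝ => z1 + s • EuclideanSpace.single i (1:ℝ)) hloc' hcont
      simp only [Function.comp_def, norm_line] at this
      exact this
    refine second_le (F1 := fun s => F1 i s + e * (2 * z1 i + 2 * s)) ?_ ?_ hm
    · filter_upwards [h1 i] with s hs
      apply hs.add
      have h4 : HasDerivAt (fun s : ℝ => ‖z1‖ ^ 2 + 2 * s * z1 i + s ^ 2) (2 * z1 i + 2 * s) s := by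
        have a1 : HasDerivAt (fun s : ℝ => ‖z1‖ ^ 2 + 2 * s * z1 i) (2 * z1 i) s := by
          have := (((hasDerivAt_id s).const_mul 2).mul_const (z1 i)).const_add (‖z1‖ ^ 2)
          simpa using this
        have a2 : HasDerivAt (fun s : ℝ => s ^ 2) (2 * s) s := by
          simpa using hasDerivAt_pow 2 s
        exact a1.add a2
      exact h4.const_mul e
    · have h5 : HasDerivAt (fun s : ℝ => e * (2 * z1 i + 2 * s)) (2 * e) 0 := by
        have := (((hasDerivAt_id (0:ℝ)).const_mul 2).const_add (2 * z1 i)).const_mul e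
        simpa [mul_comm] using this
      exact (h2 i).add h5
  have hsum : ∑ i, (c i + 2 * e) ≤ 0 := Finset.sum_nonpos (fun i _ => key i)
  rw [Finset.sum_add_distrib, h3] at hsum
  simp only [Finset.sum_const, Finset.card_univ, Fintype.card_fin, nsmul_eq_mul, zero_add] at hsum
  have : (0:ℝ) < n := by exact_mod_cast hn
  have : 0 < (n:ℝ) * (2 * e) := by positivity
  linarith

/-- weak maximum principle for functions with zero boundary values -/
theorem max_principle {n : ℕ} (hn : 0 < n) (F : EuclideanSpace ℝ (Fin n) → ℝ)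
    (hc : ContinuousOn F (Metric.ball 0 1))
    (hL : ∀ z ∈ Metric.ball (0 : EuclideanSpace ℝ (Fin n)) 1, LH F z 0)
    (hb : ∀ ε : ℝ, 0 < ε → ∃ ρ : ℝ, ρ < 1 ∧ ∀ z : EuclideanSpace ℝ (Fin n), ρ ≤ ‖z‖ → ‖z‖ < 1 →
      |F z| ≤ ε) :
    ∀ z ∈ Metric.ball (0 : EuclideanSpace ℝ (Fin n)) 1, F z = 0 := by
  intro z hz
  have h1 := max_le hn F hc hL hb z hz
  have h2 := max_le hn (fun z => -F z) hc.neg (fun w hw => by
    obtain ⟨F1, c, a1, a2, a3⟩ := hL w hw
    refine ⟨fun i s => -F1 i s, fun i => -c i, fun i => ?_, fun i => (a2 i).neg, ?_⟩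
    · filter_upwards [a1 i] with s hs using hs.neg
    · rw [Finset.sum_neg_distrib, a3, neg_zero]) (fun ε hε => by
    obtain ⟨ρ, r1, r2⟩ := hb ε hε
    exact ⟨ρ, r1, fun w b1 b2 => by rw [abs_neg]; exact r2 w b1 b2⟩) z hz
  linarith
end J2

section J3
theorem K_iso {n : ℕ} (R : EuclideanSpace ℝ (Fin n) ≃ₗᵢ[ℝ] EuclideanSpace ℝ (Fin n))
    (z w : EuclideanSpace ℝ (Fin n)) : K (R z) (R w) = K z w := by
  unfold K
  rw [← map_sub, R.norm_map, R.norm_map, R.norm_map]

/-- the map induced on the unit sphere -/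
noncomputable def sph {n : ℕ} (R : EuclideanSpace ℝ (Fin n) ≃ₗᵢ[ℝ] EuclideanSpace ℝ (Fin n))
    (θ : Metric.sphere (0 : EuclideanSpace ℝ (Fin n)) 1) :
    Metric.sphere (0 : EuclideanSpace ℝ (Fin n)) 1 :=
  ⟨R θ, by
    have := θ.2
    rw [mem_sphere_zero_iff_norm] at this ⊢
    rw [R.norm_map, this]⟩

theorem sph_cont {n : ℕ} (R : EuclideanSpace ℝ (Fin n) ≃ₗᵢ[ℝ] EuclideanSpace ℝ (Fin n)) :
    Continuous (sph R) :=
  (R.continuous.comp continuous_subtype_val).subtype_mk _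

open Pointwise in
theorem sph_mp {n : ℕ} (R : EuclideanSpace ℝ (Fin n) ≃ₗᵢ[ℝ] EuclideanSpace ℝ (Fin n)) :
    Measure.map (sph R) ((volume : Measure (EuclideanSpace ℝ (Fin n))).toSphere) =
      (volume : Measure (EuclideanSpace ℝ (Fin n))).toSphere := by
  ext s hs
  rw [Measure.map_apply (sph_cont R).measurable hs, Measure.toSphere_apply' _ hs,
    Measure.toSphere_apply' _ ((sph_cont R).measurable hs)]
  congr 1
  have h1 : (Ioo (0:ℝ) 1 • (Subtype.val '' (sph R ⁻¹' s)) : Set (EuclideanSpace ℝ (Fin n))) =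
      R ⁻¹' (Ioo (0:ℝ) 1 • (Subtype.val '' s)) := by
    ext x
    simp only [Set.mem_smul, Set.mem_image, Set.mem_preimage]
    constructor
    · rintro ⟨r, hr, y, ⟨θ, hθ, rfl⟩, rfl⟩
      refine ⟨r, hr, R θ, ⟨sph R θ, hθ, rfl⟩, ?_⟩
      rw [map_smul]
    · rintro ⟨r, hr, y, ⟨θ, hθ, rfl⟩, hx⟩
      refine ⟨r, hr, R.symm θ, ⟨sph R.symm θ, ?_, rfl⟩, ?_⟩
      · have : sph R (sph R.symm θ) = θ := by
          apply Subtype.ext
          show R (R.symm θ) = θ
          simp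
        rw [this]; exact hθ
      · apply R.injective
        rw [map_smul, R.apply_symm_apply]
        exact hx
  rw [h1]
  exact R.measurePreserving.measure_preimage_emb R.toHomeomorph.measurableEmbedding _

/-- the spherical integral of `K z ·` depends only on `‖z‖` -/
theorem int_K_rot {n : ℕ} (z z' : EuclideanSpace ℝ (Fin n)) (h : ‖z‖ = ‖z'‖) :
    ∫ θ : Metric.sphere (0 : EuclideanSpace ℝ (Fin n)) 1, K z (θ : EuclideanSpace ℝ (Fin n))
        ∂((volume : Measure (EuclideanSpace ℝ (Fin n))).toSphere)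
      = ∫ θ : Metric.sphere (0 : EuclideanSpace ℝ (Fin n)) 1, K z' (θ : EuclideanSpace ℝ (Fin n))
        ∂((volume : Measure (EuclideanSpace ℝ (Fin n))).toSphere) := by
  let R : EuclideanSpace ℝ (Fin n) ≃ₗᵢ[ℝ] EuclideanSpace ℝ (Fin n) :=
    (Submodule.span ℝ {z - z'})ᗮ.reflection
  have hR : R z = z' := Submodule.reflection_sub h
  have hm : Measurable fun θ : Metric.sphere (0 : EuclideanSpace ℝ (Fin n)) 1 =>
      K z' (θ : EuclideanSpace ℝ (Fin n)) := by
    unfold K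
    fun_prop
  calc ∫ θ : Metric.sphere (0 : EuclideanSpace ℝ (Fin n)) 1, K z (θ : EuclideanSpace ℝ (Fin n))
        ∂((volume : Measure (EuclideanSpace ℝ (Fin n))).toSphere)
      = ∫ θ : Metric.sphere (0 : EuclideanSpace ℝ (Fin n)) 1,
          K z' ((sph R θ : Metric.sphere (0 : EuclideanSpace ℝ (Fin n)) 1) : EuclideanSpace ℝ (Fin n))
        ∂((volume : Measure (EuclideanSpace ℝ (Fin n))).toSphere) := by
        apply integral_congr_ae
        apply Filter.Eventually.of_forall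
        intro θ
        show K z θ = K z' (R θ)
        rw [← hR, K_iso]
    _ = ∫ θ : Metric.sphere (0 : EuclideanSpace ℝ (Fin n)) 1, K z' (θ : EuclideanSpace ℝ (Fin n))
        ∂(Measure.map (sph R) ((volume : Measure (EuclideanSpace ℝ (Fin n))).toSphere)) := by
        rw [integral_map (sph_cont R).measurable.aemeasurable hm.aestronglyMeasurable]
    _ = _ := by rw [sph_mp]
end J3

section J4
theorem deriv_int {S : Type*} [TopologicalSpace S] [CompactSpace S] [MeasurableSpace S]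
    [BorelSpace S] [SecondCountableTopology S] (μ : Measure S) [IsFiniteMeasure μ] (ε : ℝ)
    (k0 k1 : ℝ → S → ℝ)
    (h : S → ℝ) (hh : Continuous h)
    (hk0 : ContinuousOn (fun p : ℝ × S => k0 p.1 p.2) (Ioo (-ε) ε ×ˢ univ))
    (hk1 : ContinuousOn (fun p : ℝ × S => k1 p.1 p.2) (Ioo (-ε) ε ×ˢ univ))
    (hd : ∀ s ∈ Ioo (-ε) ε, ∀ θ, HasDerivAt (fun s => k0 s θ) (k1 s θ) s) (s0 : ℝ)
    (hs0 : s0 ∈ Ioo (-ε) ε) :
    HasDerivAt (fun s => ∫ θ, k0 s θ * h θ ∂μ) (∫ θ, k1 s0 θ * h θ ∂μ) s0 := by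
  obtain ⟨δ, hδ, hsub⟩ : ∃ δ > 0, Metric.closedBall s0 δ ⊆ Ioo (-ε) ε :=
    Metric.nhds_basis_closedBall.mem_iff.mp (isOpen_Ioo.mem_nhds hs0)
  have hc : ∀ (k : ℝ → S → ℝ), ContinuousOn (fun p : ℝ × S => k p.1 p.2) (Ioo (-ε) ε ×ˢ univ) →
      ∀ s ∈ Ioo (-ε) ε, Continuous fun θ => k s θ * h θ := by
    intro k hk s hs
    have h1 : Continuous fun θ : S => k s θ := by
      refine hk.comp_continuous (f := fun θ : S => (s, θ)) (by fun_prop) ?_
      intro θ
      exact ⟨hs, mem_univ _⟩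
    exact h1.mul hh
  have hint : ∀ g : S → ℝ, Continuous g → Integrable g μ := by
    intro g hg
    obtain ⟨C, hC⟩ := (isCompact_univ (X := S)).exists_bound_of_continuousOn hg.continuousOn
    exact Integrable.of_bound hg.aestronglyMeasurable C
      (Eventually.of_forall fun θ => hC θ (mem_univ _))
  have hcomp : IsCompact (Metric.closedBall s0 δ ×ˢ (univ : Set S)) :=
    (isCompact_closedBall s0 δ).prod isCompact_univ
  have hkh : ContinuousOn (fun p : ℝ × S => k1 p.1 p.2 * h p.2)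
      (Metric.closedBall s0 δ ×ˢ univ) := by
    refine (hk1.mono (prod_mono_left hsub)).mul ?_
    exact (hh.comp continuous_snd).continuousOn
  obtain ⟨C, hC⟩ := hcomp.exists_bound_of_continuousOn hkh
  refine (hasDerivAt_integral_of_dominated_loc_of_deriv_le (F := fun s θ => k0 s θ * h θ)
    (F' := fun s θ => k1 s θ * h θ) (s := Metric.ball s0 δ) (bound := fun _ => C)
    (Metric.ball_mem_nhds s0 hδ) ?_ ?_ ?_ ?_ ?_ ?_).2
  · filter_upwards [isOpen_Ioo.mem_nhds hs0] with s hs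
    exact (hc k0 hk0 s hs).aestronglyMeasurable
  · exact hint _ (hc k0 hk0 s0 hs0)
  · exact (hc k1 hk1 s0 hs0).aestronglyMeasurable
  · refine Eventually.of_forall fun θ s hs => ?_
    exact hC (s, θ) ⟨Metric.ball_subset_closedBall hs, mem_univ _⟩
  · exact integrable_const C
  · refine Eventually.of_forall fun θ s hs => ?_
    exact (hd s (hsub (Metric.ball_subset_closedBall hs)) θ).mul_const (h θ)

section
variable {n : ℕ}

/-- numerator -/
noncomputable def aa (z : EuclideanSpace ℝ (Fin n)) (i : Fin n) (s : ℝ) : ℝ :=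
  1 - (‖z‖ ^ 2 + 2 * s * z i + s ^ 2)

/-- squared distance -/
noncomputable def dd (z : EuclideanSpace ℝ (Fin n)) (i : Fin n) (s : ℝ) (θ : EuclideanSpace ℝ (Fin n)) : ℝ :=
  ‖θ - z‖ ^ 2 - 2 * s * (θ i - z i) + s ^ 2

theorem norm_add_single (z : EuclideanSpace ℝ (Fin n)) (i : Fin n) (s : ℝ) :
    ‖z + s • EuclideanSpace.single i (1 : ℝ)‖ ^ 2 = ‖z‖ ^ 2 + 2 * s * z i + s ^ 2 := by
  rw [norm_add_sq_real, inner_smul_right, EuclideanSpace.inner_single_right, norm_smul]
  simp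
  ring

theorem norm_sub_single (z θ : EuclideanSpace ℝ (Fin n)) (i : Fin n) (s : ℝ) :
    ‖θ - (z + s • EuclideanSpace.single i (1 : ℝ))‖ ^ 2 = dd z i s θ := by
  rw [← sub_sub, norm_sub_sq_real, inner_smul_right, EuclideanSpace.inner_single_right, norm_smul,
    dd]
  simp
  ring

theorem norm_pow_rpow {w : EuclideanSpace ℝ (Fin n)} : ‖w‖ ^ n = (‖w‖ ^ 2) ^ ((n : ℝ) / 2) := by
  rw [← Real.rpow_natCast, ← Real.rpow_natCast, ← Real.rpow_mul (norm_nonneg _)]
  congr 1
  push_cast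
  ring

theorem dd_pos {z : EuclideanSpace ℝ (Fin n)} (hz : ‖z‖ < 1) (i : Fin n) {s : ℝ}
    (hs : s ∈ Ioo (-(1 - ‖z‖)) (1 - ‖z‖)) {θ : EuclideanSpace ℝ (Fin n)} (hθ : ‖θ‖ = 1) :
    0 < dd z i s θ := by
  rw [← norm_sub_single]
  have h1 : ‖z + s • EuclideanSpace.single i (1 : ℝ)‖ < 1 := by
    have h2 : ‖z + s • EuclideanSpace.single i (1 : ℝ)‖ ≤ ‖z‖ + |s| := by
      refine (norm_add_le _ _).trans ?_
      rw [norm_smul]
      simp
    have h3 : |s| < 1 - ‖z‖ := abs_lt.mpr hs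
    linarith
  have h2 : 0 < ‖θ - (z + s • EuclideanSpace.single i (1 : ℝ))‖ := by
    have := norm_sub_norm_le θ (z + s • EuclideanSpace.single i (1 : ℝ))
    linarith
  positivity

theorem K_eq {z : EuclideanSpace ℝ (Fin n)} (hz : ‖z‖ < 1) (i : Fin n) {s : ℝ}
    (hs : s ∈ Ioo (-(1 - ‖z‖)) (1 - ‖z‖)) {θ : EuclideanSpace ℝ (Fin n)} (hθ : ‖θ‖ = 1) :
    K (z + s • EuclideanSpace.single i (1 : ℝ)) θ = aa z i s * dd z i s θ ^ (-((n : ℝ) / 2)) := by
  have h1 := dd_pos hz i hs hθ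
  unfold K
  rw [norm_pow_rpow (w := θ - (z + s • EuclideanSpace.single i (1 : ℝ))), norm_sub_single,
    norm_add_single, hθ, Real.rpow_neg h1.le, aa]
  field_simp

/-- first derivative -/
noncomputable def k1 (z : EuclideanSpace ℝ (Fin n)) (i : Fin n) (p s : ℝ)
    (θ : EuclideanSpace ℝ (Fin n)) : ℝ :=
  (-2 * z i - 2 * s) * dd z i s θ ^ p +
    aa z i s * (p * (-2 * (θ i - z i) + 2 * s) * dd z i s θ ^ (p - 1))

/-- second derivative -/
noncomputable def k2 (z : EuclideanSpace ℝ (Fin n)) (i : Fin n) (p s : ℝ)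
    (θ : EuclideanSpace ℝ (Fin n)) : ℝ :=
  -2 * dd z i s θ ^ p +
    2 * (-2 * z i - 2 * s) * (p * (-2 * (θ i - z i) + 2 * s) * dd z i s θ ^ (p - 1)) +
    aa z i s * (p * 2 * dd z i s θ ^ (p - 1)) +
    aa z i s * (p * (p - 1) * (-2 * (θ i - z i) + 2 * s) ^ 2 * dd z i s θ ^ (p - 2))

theorem hd_aa (z : EuclideanSpace ℝ (Fin n)) (i : Fin n) (s : ℝ) :
    HasDerivAt (fun s => aa z i s) (-2 * z i - 2 * s) s := by
  unfold aa
  have h1 : HasDerivAt (fun s : ℝ => 1 - (‖z‖ ^ 2 + 2 * s * z i + s ^ 2))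
      (0 - ((0 + 2 * 1 * z i) + 2 * s)) s := by
    refine (hasDerivAt_const s 1).sub (((hasDerivAt_const s _).add
      (((hasDerivAt_id s).const_mul 2).mul_const (z i))).add ?_)
    simpa using hasDerivAt_pow 2 s
  convert h1 using 1
  ring

theorem hd_dd (z : EuclideanSpace ℝ (Fin n)) (i : Fin n) (s : ℝ) (θ : EuclideanSpace ℝ (Fin n)) :
    HasDerivAt (fun s => dd z i s θ) (-2 * (θ i - z i) + 2 * s) s := by
  unfold dd
  have h1 : HasDerivAt (fun s : ℝ => ‖θ - z‖ ^ 2 - 2 * s * (θ i - z i) + s ^ 2)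
      ((0 - 2 * 1 * (θ i - z i)) + 2 * s) s := by
    refine ((hasDerivAt_const s _).sub
      (((hasDerivAt_id s).const_mul 2).mul_const (θ i - z i))).add ?_
    simpa using hasDerivAt_pow 2 s
  convert h1 using 1
  ring

theorem hd_pow (z : EuclideanSpace ℝ (Fin n)) (i : Fin n) (s p : ℝ) (θ : EuclideanSpace ℝ (Fin n))
    (h : 0 < dd z i s θ) : HasDerivAt (fun s => dd z i s θ ^ p)
      (p * (-2 * (θ i - z i) + 2 * s) * dd z i s θ ^ (p - 1)) s := by
  have := (hd_dd z i s θ).rpow_const (p := p) (Or.inl h.ne')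
  convert this using 1
  ring

theorem hd_k0 (z : EuclideanSpace ℝ (Fin n)) (i : Fin n) (s p : ℝ) (θ : EuclideanSpace ℝ (Fin n))
    (h : 0 < dd z i s θ) :
    HasDerivAt (fun s => aa z i s * dd z i s θ ^ p) (k1 z i p s θ) s :=
  (hd_aa z i s).mul (hd_pow z i s p θ h)

theorem hd_k1 (z : EuclideanSpace ℝ (Fin n)) (i : Fin n) (s p : ℝ) (θ : EuclideanSpace ℝ (Fin n))
    (h : 0 < dd z i s θ) : HasDerivAt (fun s => k1 z i p s θ) (k2 z i p s θ) s := by
  unfold k1
  have h1 : HasDerivAt (fun s : ℝ => -2 * z i - 2 * s) (-2) s := by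
    simpa using ((hasDerivAt_id s).const_mul 2).const_sub (-2 * z i)
  have h2 : HasDerivAt (fun s : ℝ => -2 * (θ i - z i) + 2 * s) 2 s := by
    simpa using ((hasDerivAt_id s).const_mul 2).const_add (-2 * (θ i - z i))
  have h3 := (h1.mul (hd_pow z i s p θ h)).add
    ((hd_aa z i s).mul ((h2.const_mul p).mul (hd_pow z i s (p - 1) θ h)))
  refine h3.congr_deriv ?_
  unfold k2
  simp only [Pi.mul_apply]
  rw [show p - 1 - 1 = p - 2 by ring]
  ring

theorem sum_k2 (z : EuclideanSpace ℝ (Fin n)) (θ : EuclideanSpace ℝ (Fin n)) (hθ : ‖θ‖ = 1)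
    (h : 0 < ‖θ - z‖) : ∑ i, k2 z i (-((n : ℝ) / 2)) 0 θ = 0 := by
  set p : ℝ := -((n : ℝ) / 2) with hp
  have hD : 0 < ‖θ - z‖ ^ 2 := by positivity
  have hdd : ∀ i, dd z i 0 θ = ‖θ - z‖ ^ 2 := fun i => by simp [dd]
  have haa : ∀ i, aa z i 0 = 1 - ‖z‖ ^ 2 := fun i => by simp [aa]
  have hk : ∀ i, k2 z i p 0 θ = -2 * (‖θ - z‖ ^ 2) ^ p +
      8 * p * (‖θ - z‖ ^ 2) ^ (p - 1) * (z i * (θ i - z i)) +
      2 * p * (1 - ‖z‖ ^ 2) * (‖θ - z‖ ^ 2) ^ (p - 1) +
      4 * p * (p - 1) * (1 - ‖z‖ ^ 2) * (‖θ - z‖ ^ 2) ^ (p - 2) * (θ i - z i) ^ 2 := by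
    intro i
    unfold k2
    rw [hdd, haa]
    ring
  have hs1 : ∑ i, (θ i - z i) ^ 2 = ‖θ - z‖ ^ 2 := by
    rw [EuclideanSpace.norm_sq_eq]
    refine Finset.sum_congr rfl fun i _ => ?_
    simp
  have hs2 : ∑ i, z i * (θ i - z i) = inner ℝ θ z - ‖z‖ ^ 2 := by
    rw [EuclideanSpace.norm_sq_eq, PiLp.inner_apply, ← Finset.sum_sub_distrib]
    refine Finset.sum_congr rfl fun i _ => ?_
    simp
    ring
  have hD2 : ‖θ - z‖ ^ 2 = 1 - 2 * inner ℝ θ z + ‖z‖ ^ 2 := by
    rw [norm_sub_sq_real, hθ]; ring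
  simp only [hk, Finset.sum_add_distrib, ← Finset.mul_sum, hs1, hs2, Finset.sum_const,
    Finset.card_univ, Fintype.card_fin, nsmul_eq_mul]
  have hr1 : (‖θ - z‖ ^ 2) ^ p = (‖θ - z‖ ^ 2) ^ (p - 1) * ‖θ - z‖ ^ 2 := by
    rw [← Real.rpow_add_one hD.ne']; congr 1; ring
  have hr2 : (‖θ - z‖ ^ 2) ^ (p - 2) * ‖θ - z‖ ^ 2 = (‖θ - z‖ ^ 2) ^ (p - 1) := by
    rw [← Real.rpow_add_one hD.ne']; congr 1; ring
  have hn : (n : ℝ) = -2 * p := by rw [hp]; ring
  rw [mul_assoc (4 * p * (p - 1) * (1 - ‖z‖ ^ 2)), hr2, hr1, hn]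
  set Q := (‖θ - z‖ ^ 2) ^ (p - 1)
  rw [hD2]
  ring

end

/-- differentiation under the integral sign for Poisson integrals: the integral is harmonic in the
open unit ball in the sense of `LH` -/
theorem lh_integral {n : ℕ} (h : Metric.sphere (0 : EuclideanSpace ℝ (Fin n)) 1 → ℝ)
    (hh : Continuous h) (z : EuclideanSpace ℝ (Fin n)) (hz : ‖z‖ < 1) :
    LH (fun z => ∫ θ : Metric.sphere (0 : EuclideanSpace ℝ (Fin n)) 1,
      K z (θ : EuclideanSpace ℝ (Fin n)) * h θ
        ∂((volume : Measure (EuclideanSpace ℝ (Fin n))).toSphere)) z 0 := by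
  set μ := (volume : Measure (EuclideanSpace ℝ (Fin n))).toSphere with hμ
  set p : ℝ := -((n : ℝ) / 2) with hp
  have hθ1 : ∀ θ : Metric.sphere (0 : EuclideanSpace ℝ (Fin n)) 1,
      ‖(θ : EuclideanSpace ℝ (Fin n))‖ = 1 := fun θ => by simpa using θ.2
  set ε : ℝ := 1 - ‖z‖ with hε
  have hε0 : 0 < ε := by rw [hε]; linarith
  have hdc : ∀ i, Continuous fun q : ℝ × Metric.sphere (0 : EuclideanSpace ℝ (Fin n)) 1 =>
      dd z i q.1 (q.2 : EuclideanSpace ℝ (Fin n)) := by
    intro i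
    unfold dd
    fun_prop
  have hdpow : ∀ i (q : ℝ), ContinuousOn (fun x : ℝ × Metric.sphere (0 : EuclideanSpace ℝ (Fin n)) 1 =>
      dd z i x.1 (x.2 : EuclideanSpace ℝ (Fin n)) ^ q) (Ioo (-ε) ε ×ˢ univ) := by
    intro i q
    refine (hdc i).continuousOn.rpow_const ?_
    intro x hx
    exact Or.inl (dd_pos hz i hx.1 (hθ1 x.2)).ne'
  have haac : ∀ i, Continuous fun q : ℝ × Metric.sphere (0 : EuclideanSpace ℝ (Fin n)) 1 =>
      aa z i q.1 := by
    intro i
    unfold aa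
    fun_prop
  have hc0 : ∀ i, ContinuousOn (fun x : ℝ × Metric.sphere (0 : EuclideanSpace ℝ (Fin n)) 1 =>
      aa z i x.1 * dd z i x.1 (x.2 : EuclideanSpace ℝ (Fin n)) ^ p) (Ioo (-ε) ε ×ˢ univ) :=
    fun i => (haac i).continuousOn.mul (hdpow i p)
  have hc1 : ∀ i, ContinuousOn (fun x : ℝ × Metric.sphere (0 : EuclideanSpace ℝ (Fin n)) 1 =>
      k1 z i p x.1 (x.2 : EuclideanSpace ℝ (Fin n))) (Ioo (-ε) ε ×ˢ univ) := by
    intro i
    unfold k1
    have e1 : Continuous fun x : ℝ × Metric.sphere (0 : EuclideanSpace ℝ (Fin n)) 1 =>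
      (-2 * z i - 2 * x.1) := by fun_prop
    have e2 : Continuous fun x : ℝ × Metric.sphere (0 : EuclideanSpace ℝ (Fin n)) 1 =>
      (p * (-2 * ((x.2 : EuclideanSpace ℝ (Fin n)) i - z i) + 2 * x.1)) := by fun_prop
    exact (e1.continuousOn.mul (hdpow i p)).add
      ((haac i).continuousOn.mul (e2.continuousOn.mul (hdpow i (p - 1))))
  have hc2 : ∀ i, ContinuousOn (fun x : ℝ × Metric.sphere (0 : EuclideanSpace ℝ (Fin n)) 1 =>
      k2 z i p x.1 (x.2 : EuclideanSpace ℝ (Fin n))) (Ioo (-ε) ε ×ˢ univ) := by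
    intro i
    unfold k2
    have e0 : Continuous fun x : ℝ × Metric.sphere (0 : EuclideanSpace ℝ (Fin n)) 1 =>
      (-2 : ℝ) := by fun_prop
    have e1 : Continuous fun x : ℝ × Metric.sphere (0 : EuclideanSpace ℝ (Fin n)) 1 =>
      (2 * (-2 * z i - 2 * x.1)) := by fun_prop
    have e2 : Continuous fun x : ℝ × Metric.sphere (0 : EuclideanSpace ℝ (Fin n)) 1 =>
      (p * (-2 * ((x.2 : EuclideanSpace ℝ (Fin n)) i - z i) + 2 * x.1)) := by fun_prop
    have e3 : Continuous fun x : ℝ × Metric.sphere (0 : EuclideanSpace ℝ (Fin n)) 1 =>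
      (p * 2 : ℝ) := by fun_prop
    have e4 : Continuous fun x : ℝ × Metric.sphere (0 : EuclideanSpace ℝ (Fin n)) 1 =>
      (p * (p - 1) * (-2 * ((x.2 : EuclideanSpace ℝ (Fin n)) i - z i) + 2 * x.1) ^ 2) := by fun_prop
    exact (((e0.continuousOn.mul (hdpow i p)).add
      (e1.continuousOn.mul (e2.continuousOn.mul (hdpow i (p - 1))))).add
      ((haac i).continuousOn.mul (e3.continuousOn.mul (hdpow i (p - 1))))).add
      ((haac i).continuousOn.mul (e4.continuousOn.mul (hdpow i (p - 2))))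
  refine ⟨fun i s => ∫ θ : Metric.sphere (0 : EuclideanSpace ℝ (Fin n)) 1,
      k1 z i p s (θ : EuclideanSpace ℝ (Fin n)) * h θ ∂μ,
    fun i => ∫ θ : Metric.sphere (0 : EuclideanSpace ℝ (Fin n)) 1,
      k2 z i p 0 (θ : EuclideanSpace ℝ (Fin n)) * h θ ∂μ, ?_, ?_, ?_⟩
  · intro i
    have hI : Ioo (-ε) ε ∈ 𝓝 (0 : ℝ) := Ioo_mem_nhds (by linarith) hε0
    filter_upwards [hI] with s hs
    have h1 := deriv_int μ ε (fun s (θ : Metric.sphere (0 : EuclideanSpace ℝ (Fin n)) 1) =>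
      aa z i s * dd z i s (θ : EuclideanSpace ℝ (Fin n)) ^ p)
      (fun s (θ : Metric.sphere (0 : EuclideanSpace ℝ (Fin n)) 1) =>
        k1 z i p s (θ : EuclideanSpace ℝ (Fin n))) h hh (hc0 i) (hc1 i)
      (fun s hs θ => hd_k0 z i s p θ (dd_pos hz i hs (hθ1 θ))) s hs
    refine h1.congr_of_eventuallyEq ?_
    filter_upwards [isOpen_Ioo.mem_nhds hs] with t ht
    refine integral_congr_ae (Eventually.of_forall fun θ => ?_)
    simp only
    rw [K_eq hz i ht (hθ1 θ)]
  · intro i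
    exact deriv_int μ ε (fun s (θ : Metric.sphere (0 : EuclideanSpace ℝ (Fin n)) 1) =>
        k1 z i p s (θ : EuclideanSpace ℝ (Fin n)))
      (fun s (θ : Metric.sphere (0 : EuclideanSpace ℝ (Fin n)) 1) =>
        k2 z i p s (θ : EuclideanSpace ℝ (Fin n))) h hh (hc1 i) (hc2 i)
      (fun s hs θ => hd_k1 z i s p θ (dd_pos hz i hs (hθ1 θ))) 0 ⟨by linarith, hε0⟩
  · have hint : ∀ i ∈ Finset.univ, Integrable (fun θ : Metric.sphere (0 : EuclideanSpace ℝ (Fin n)) 1 =>
        k2 z i p 0 (θ : EuclideanSpace ℝ (Fin n)) * h θ) μ := by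
      intro i _
      have h1 : Continuous fun θ : Metric.sphere (0 : EuclideanSpace ℝ (Fin n)) 1 =>
          k2 z i p 0 (θ : EuclideanSpace ℝ (Fin n)) * h θ := by
        refine Continuous.mul ?_ hh
        refine (hc2 i).comp_continuous
          (f := fun θ : Metric.sphere (0 : EuclideanSpace ℝ (Fin n)) 1 => ((0 : ℝ), θ))
          (by fun_prop) ?_
        intro θ
        exact ⟨⟨by simpa using hε0, by simpa using hε0⟩, mem_univ _⟩
      obtain ⟨C, hC⟩ := (isCompact_univ (X := Metric.sphere (0 : EuclideanSpace ℝ (Fin n)) 1)).exists_bound_of_continuousOn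
        h1.continuousOn
      exact Integrable.of_bound h1.aestronglyMeasurable C
        (Eventually.of_forall fun θ => hC θ (mem_univ _))
    rw [← integral_finsetSum _ hint]
    refine integral_eq_zero_of_ae (Eventually.of_forall fun θ => ?_)
    simp only [Pi.zero_apply]
    rw [← Finset.sum_mul, sum_k2 z θ (hθ1 θ), zero_mul]
    have := norm_sub_norm_le (θ : EuclideanSpace ℝ (Fin n)) z
    rw [hθ1 θ] at this
    linarith
end J4

section J5
/-- continuity of Poisson integrals in the open unit ball -/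
theorem cont_integral {n : ℕ} (h : Metric.sphere (0 : EuclideanSpace ℝ (Fin n)) 1 → ℝ)
    (hh : Continuous h) :
    ContinuousOn (fun z : EuclideanSpace ℝ (Fin n) =>
      ∫ θ : Metric.sphere (0 : EuclideanSpace ℝ (Fin n)) 1,
      K z (θ : EuclideanSpace ℝ (Fin n)) * h θ
        ∂((volume : Measure (EuclideanSpace ℝ (Fin n))).toSphere)) (Metric.ball 0 1) := by
  intro z0 hz0
  apply ContinuousAt.continuousWithinAt
  rw [Metric.mem_ball, dist_zero_right] at hz0
  set δ : ℝ := (1 - ‖z0‖) / 2 with hδ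
  have hδ0 : 0 < δ := by rw [hδ]; linarith
  have hsph : ∀ θ : Metric.sphere (0 : EuclideanSpace ℝ (Fin n)) 1,
      ‖(θ : EuclideanSpace ℝ (Fin n))‖ = 1 := fun θ => mem_sphere_zero_iff_norm.1 θ.2
  obtain ⟨C, hC⟩ := isCompact_univ.exists_bound_of_continuousOn
    (f := h) hh.continuousOn
  have hlow : ∀ z ∈ Metric.ball z0 δ, ∀ θ : Metric.sphere (0 : EuclideanSpace ℝ (Fin n)) 1,
      δ < ‖(θ : EuclideanSpace ℝ (Fin n)) - z‖ ∧ ‖z‖ < 1 := by
    intro z hz θ
    rw [Metric.mem_ball, dist_eq_norm] at hz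
    have h1 : ‖z‖ ≤ ‖z0‖ + ‖z - z0‖ := by
      have := norm_add_le z0 (z - z0)
      simpa using this
    have h2 : ‖(θ : EuclideanSpace ℝ (Fin n))‖ - ‖z‖ ≤ ‖(θ : EuclideanSpace ℝ (Fin n)) - z‖ :=
      norm_sub_norm_le _ _
    rw [hsph θ] at h2
    constructor
    · rw [hδ] at hz ⊢; linarith
    · rw [hδ] at hz; linarith
  have hball : Metric.ball z0 δ ∈ 𝓝 z0 := Metric.ball_mem_nhds _ hδ0
  refine continuousAt_of_dominated (bound := fun _ => 1 / δ ^ n * |C|) ?_ ?_ ?_ ?_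
  · filter_upwards [hball] with z hz
    apply Continuous.aestronglyMeasurable
    refine Continuous.mul ?_ hh
    unfold K
    refine Continuous.div (by fun_prop) (by fun_prop) fun θ => ?_
    have h1 := (hlow z hz θ).1
    rw [hsph θ]
    have : 0 < ‖(θ : EuclideanSpace ℝ (Fin n)) - z‖ := hδ0.trans h1
    positivity
  · filter_upwards [hball] with z hz
    refine Filter.Eventually.of_forall fun θ => ?_
    obtain ⟨h1, h2⟩ := hlow z hz θ
    have h3 : 0 < ‖(θ : EuclideanSpace ℝ (Fin n)) - z‖ := hδ0.trans h1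
    rw [norm_mul]
    refine mul_le_mul ?_ ((hC θ (mem_univ _)).trans (le_abs_self C)) (norm_nonneg _) (by positivity)
    unfold K
    rw [hsph θ, norm_div, Real.norm_eq_abs, Real.norm_eq_abs, one_pow, one_mul,
      abs_of_pos (pow_pos h3 n)]
    have h4 : |1 - ‖z‖ ^ 2| ≤ 1 := by
      rw [abs_le]
      have := norm_nonneg z
      constructor <;> nlinarith
    exact div_le_div₀ zero_le_one h4 (pow_pos hδ0 n) (pow_le_pow_left₀ hδ0.le h1.le n)
  · exact integrable_const _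
  · refine Filter.Eventually.of_forall fun θ => ?_
    refine ContinuousAt.mul ?_ continuousAt_const
    unfold K
    refine ContinuousAt.div (by fun_prop) (by fun_prop) ?_
    have h1 := (hlow z0 (Metric.mem_ball_self hδ0) θ).1
    rw [hsph θ]
    have : 0 < ‖(θ : EuclideanSpace ℝ (Fin n)) - z0‖ := hδ0.trans h1
    positivity
end J5

section J6
/-- boundary values of Poisson integrals: if all Poisson kernels have total mass `σ(S)` then the
Poisson integral of a continuous function `h` (defined and continuous on the closed unit ball)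
is uniformly close to `σ(S) * h z` near the sphere. -/
theorem boundary_values {n : ℕ} (h : EuclideanSpace ℝ (Fin n) → ℝ)
    (hh : ContinuousOn h (Metric.closedBall 0 1))
    (hmass : ∀ z : EuclideanSpace ℝ (Fin n), ‖z‖ < 1 →
      ∫ θ : Metric.sphere (0 : EuclideanSpace ℝ (Fin n)) 1, K z (θ : EuclideanSpace ℝ (Fin n))
        ∂((volume : Measure (EuclideanSpace ℝ (Fin n))).toSphere)
      = ((volume : Measure (EuclideanSpace ℝ (Fin n))).toSphere).real univ)
    (ε : ℝ) (hε : 0 < ε) :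
    ∃ ρ : ℝ, ρ < 1 ∧ ∀ z : EuclideanSpace ℝ (Fin n), ρ ≤ ‖z‖ → ‖z‖ < 1 →
      |(∫ θ : Metric.sphere (0 : EuclideanSpace ℝ (Fin n)) 1,
          K z (θ : EuclideanSpace ℝ (Fin n)) * h θ
          ∂((volume : Measure (EuclideanSpace ℝ (Fin n))).toSphere))
        - ((volume : Measure (EuclideanSpace ℝ (Fin n))).toSphere).real univ * h z| ≤ ε := by
  set σ := (volume : Measure (EuclideanSpace ℝ (Fin n))).toSphere with hσ
  set S : ℝ := σ.real univ with hS
  have hS0 : 0 ≤ S := measureReal_nonneg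
  have hcomp : IsCompact (Metric.closedBall (0 : EuclideanSpace ℝ (Fin n)) 1) :=
    isCompact_closedBall _ _
  obtain ⟨M, hM⟩ := hcomp.exists_bound_of_continuousOn hh
  have hM0 : 0 ≤ M := le_trans (norm_nonneg _) (hM 0 (by simp))
  have huc := hcomp.uniformContinuousOn_of_continuous hh
  rw [Metric.uniformContinuousOn_iff] at huc
  have he' : 0 < ε / (2 * (S + 1)) := by positivity
  obtain ⟨δ, hδ, hd⟩ := huc _ he'
  have hc : 0 < ε * δ ^ n / (2 * (2 * M * S + 1)) := by positivity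
  set c : ℝ := ε * δ ^ n / (2 * (2 * M * S + 1)) with hcdef
  refine ⟨1 - c / 2, by linarith, ?_⟩
  intro z hz1 hz2
  have hzs : 1 - ‖z‖ ^ 2 ≤ c := by nlinarith [norm_nonneg z]
  have hzp : 0 < 1 - ‖z‖ ^ 2 := by nlinarith [norm_nonneg z]
  have hθ : ∀ θ : Metric.sphere (0 : EuclideanSpace ℝ (Fin n)) 1,
      ‖(θ : EuclideanSpace ℝ (Fin n))‖ = 1 := fun θ => mem_sphere_zero_iff_norm.mp θ.2
  have hne : ∀ θ : Metric.sphere (0 : EuclideanSpace ℝ (Fin n)) 1,
      0 < ‖(θ : EuclideanSpace ℝ (Fin n)) - z‖ := by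
    intro θ
    have h1 := norm_sub_norm_le (θ : EuclideanSpace ℝ (Fin n)) z
    rw [hθ θ] at h1
    linarith
  have hK : ∀ θ : Metric.sphere (0 : EuclideanSpace ℝ (Fin n)) 1,
      K z (θ : EuclideanSpace ℝ (Fin n)) =
        (1 - ‖z‖ ^ 2) / ‖(θ : EuclideanSpace ℝ (Fin n)) - z‖ ^ n := by
    intro θ
    unfold K
    rw [hθ θ]
    norm_num
  have hKc : Continuous fun θ : Metric.sphere (0 : EuclideanSpace ℝ (Fin n)) 1 =>
      K z (θ : EuclideanSpace ℝ (Fin n)) := by
    simp only [hK]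
    apply Continuous.div continuous_const
    · exact ((continuous_subtype_val.sub continuous_const).norm).pow n
    · intro θ
      exact (pow_pos (hne θ) n).ne'
  have hhc : Continuous fun θ : Metric.sphere (0 : EuclideanSpace ℝ (Fin n)) 1 =>
      h (θ : EuclideanSpace ℝ (Fin n)) := by
    apply hh.comp_continuous continuous_subtype_val
    intro θ
    exact Metric.sphere_subset_closedBall θ.2
  have hint : ∀ f : Metric.sphere (0 : EuclideanSpace ℝ (Fin n)) 1 → ℝ, Continuous f →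
      Integrable f σ := by
    intro f hf
    exact hf.integrable_of_hasCompactSupport (HasCompactSupport.of_compactSpace f)
  have hzb : z ∈ Metric.closedBall (0 : EuclideanSpace ℝ (Fin n)) 1 := by
    rw [mem_closedBall_zero_iff]
    exact hz2.le
  have heq : (∫ θ : Metric.sphere (0 : EuclideanSpace ℝ (Fin n)) 1,
      K z (θ : EuclideanSpace ℝ (Fin n)) * h θ ∂σ) - S * h z =
      ∫ θ : Metric.sphere (0 : EuclideanSpace ℝ (Fin n)) 1,
      K z (θ : EuclideanSpace ℝ (Fin n)) * (h θ - h z) ∂σ := by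
    rw [← hmass z hz2, ← integral_mul_const, ← integral_sub]
    · congr 1
      funext θ
      ring
    · exact hint _ (hKc.mul hhc)
    · exact hint _ (hKc.mul continuous_const)
  rw [heq, ← Real.norm_eq_abs]
  have hb : ∀ θ : Metric.sphere (0 : EuclideanSpace ℝ (Fin n)) 1,
      ‖K z (θ : EuclideanSpace ℝ (Fin n)) * (h θ - h z)‖ ≤
      K z (θ : EuclideanSpace ℝ (Fin n)) * (ε / (2 * (S + 1))) +
        (1 - ‖z‖ ^ 2) / δ ^ n * (2 * M) := by
    intro θ
    have hKp : 0 ≤ K z (θ : EuclideanSpace ℝ (Fin n)) := by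
      rw [hK]
      have := hne θ
      positivity
    have hθb : (θ : EuclideanSpace ℝ (Fin n)) ∈ Metric.closedBall (0 : EuclideanSpace ℝ (Fin n)) 1 :=
      Metric.sphere_subset_closedBall θ.2
    rw [norm_mul, Real.norm_of_nonneg hKp]
    rcases lt_or_ge (dist (θ : EuclideanSpace ℝ (Fin n)) z) δ with h1 | h1
    · have h2 := hd _ hθb _ hzb h1
      rw [Real.dist_eq] at h2
      have h3 : K z (θ : EuclideanSpace ℝ (Fin n)) * ‖h θ - h z‖ ≤
          K z (θ : EuclideanSpace ℝ (Fin n)) * (ε / (2 * (S + 1))) :=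
        mul_le_mul_of_nonneg_left h2.le hKp
      have h4 : 0 ≤ (1 - ‖z‖ ^ 2) / δ ^ n * (2 * M) := by positivity
      linarith
    · have h2 : ‖h θ - h z‖ ≤ 2 * M := by
        have h3 := norm_sub_le (h θ) (h z)
        have h4 := hM _ hθb
        have h5 := hM _ hzb
        linarith
      have h3 : K z (θ : EuclideanSpace ℝ (Fin n)) ≤ (1 - ‖z‖ ^ 2) / δ ^ n := by
        rw [hK]
        rw [dist_eq_norm] at h1
        apply div_le_div_of_nonneg_left hzp.le (by positivity)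
        exact pow_le_pow_left₀ hδ.le h1 n
      have h4 : K z (θ : EuclideanSpace ℝ (Fin n)) * ‖h θ - h z‖ ≤
          (1 - ‖z‖ ^ 2) / δ ^ n * (2 * M) :=
        mul_le_mul h3 h2 (norm_nonneg _) (by positivity)
      have h5 : 0 ≤ K z (θ : EuclideanSpace ℝ (Fin n)) * (ε / (2 * (S + 1))) :=
        mul_nonneg hKp he'.le
      linarith
  have hbi : Integrable (fun θ : Metric.sphere (0 : EuclideanSpace ℝ (Fin n)) 1 =>
      K z (θ : EuclideanSpace ℝ (Fin n)) * (ε / (2 * (S + 1))) +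
        (1 - ‖z‖ ^ 2) / δ ^ n * (2 * M)) σ :=
    hint _ ((hKc.mul continuous_const).add continuous_const)
  have h1 := norm_integral_le_of_norm_le hbi (Filter.Eventually.of_forall hb)
  refine h1.trans ?_
  have hi1 : Integrable (fun θ : Metric.sphere (0 : EuclideanSpace ℝ (Fin n)) 1 =>
      K z (θ : EuclideanSpace ℝ (Fin n)) * (ε / (2 * (S + 1)))) σ :=
    hint _ (hKc.mul continuous_const)
  have hi2 : Integrable (fun θ : Metric.sphere (0 : EuclideanSpace ℝ (Fin n)) 1 =>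
      (1 - ‖z‖ ^ 2) / δ ^ n * (2 * M)) σ := hint _ continuous_const
  rw [integral_add hi1 hi2, integral_mul_const, hmass z hz2, integral_const, smul_eq_mul]
  have h2 : S * (ε / (2 * (S + 1))) ≤ ε / 2 := by
    rw [mul_div_assoc', div_le_div_iff₀ (by positivity) (by norm_num)]
    nlinarith
  have h3 : σ.real univ * ((1 - ‖z‖ ^ 2) / δ ^ n * (2 * M)) ≤ ε / 2 := by
    rw [← hS]
    have hδn : 0 < δ ^ n := by positivity
    have h4 : (1 - ‖z‖ ^ 2) / δ ^ n ≤ ε / (2 * (2 * M * S + 1)) := by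
      rw [div_le_iff₀ hδn]
      calc 1 - ‖z‖ ^ 2 ≤ c := hzs
        _ = ε / (2 * (2 * M * S + 1)) * δ ^ n := by rw [hcdef]; ring
    have h5 : 0 ≤ S * (2 * M) := by positivity
    calc S * ((1 - ‖z‖ ^ 2) / δ ^ n * (2 * M)) = (S * (2 * M)) * ((1 - ‖z‖ ^ 2) / δ ^ n) := by ring
      _ ≤ (S * (2 * M)) * (ε / (2 * (2 * M * S + 1))) := mul_le_mul_of_nonneg_left h4 h5
      _ ≤ ε / 2 := by
        rw [mul_div_assoc', div_le_div_iff₀ (by positivity) (by norm_num)]
        nlinarith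
  linarith
end J6

section J7
/-- polar coordinates for lower integrals -/
theorem lintegral_polar {n : ℕ} (hn : 0 < n) (F : EuclideanSpace ℝ (Fin n) → ENNReal)
    (hF : Measurable F) :
    ∫⁻ w, F w = ∫⁻ r in Ioi (0:ℝ), ENNReal.ofReal (r ^ (n - 1)) *
      ∫⁻ θ : Metric.sphere (0 : EuclideanSpace ℝ (Fin n)) 1,
        F (r • (θ : EuclideanSpace ℝ (Fin n)))
        ∂((volume : Measure (EuclideanSpace ℝ (Fin n))).toSphere) := by
  haveI : Nonempty (Fin n) := ⟨⟨0, hn⟩⟩
  haveI : Nontrivial (EuclideanSpace ℝ (Fin n)) := by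
    refine ⟨⟨0, EuclideanSpace.single ⟨0, hn⟩ (1 : ℝ), ?_⟩⟩
    intro h
    have := congrArg norm h
    simp at this
  have hmeas : Measurable (fun p : Metric.sphere (0 : EuclideanSpace ℝ (Fin n)) 1 × Ioi (0 : ℝ) =>
      F ((p.2 : ℝ) • (p.1 : EuclideanSpace ℝ (Fin n)))) := by
    apply hF.comp
    fun_prop
  have hinner : Measurable (fun r : Ioi (0 : ℝ) =>
      ∫⁻ θ : Metric.sphere (0 : EuclideanSpace ℝ (Fin n)) 1,
        F ((r : ℝ) • (θ : EuclideanSpace ℝ (Fin n)))
        ∂((volume : Measure (EuclideanSpace ℝ (Fin n))).toSphere)) :=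
    Measurable.lintegral_prod_left' hmeas
  calc ∫⁻ w, F w = ∫⁻ w in {0}ᶜ, F w := by rw [restrict_compl_singleton]
    _ = ∫⁻ x : ({0}ᶜ : Set (EuclideanSpace ℝ (Fin n))), F x.1
          ∂((volume : Measure (EuclideanSpace ℝ (Fin n))).comap Subtype.val) :=
        (lintegral_subtype_comap (measurableSet_singleton _).compl _).symm
    _ = ∫⁻ p, F ((p.2 : ℝ) • (p.1 : EuclideanSpace ℝ (Fin n)))
          ∂((volume : Measure (EuclideanSpace ℝ (Fin n))).toSphere.prod
            (Measure.volumeIoiPow (Module.finrank ℝ (EuclideanSpace ℝ (Fin n)) - 1))) := by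
        rw [← (volume : Measure (EuclideanSpace ℝ
          (Fin n))).measurePreserving_homeomorphUnitSphereProd.lintegral_comp_emb
          (Homeomorph.measurableEmbedding _)]
        refine lintegral_congr (fun x => ?_)
        congr 1
        have hx : ‖(x : EuclideanSpace ℝ (Fin n))‖ ≠ 0 := norm_ne_zero_iff.2 x.2
        simp [smul_smul, hx]
    _ = ∫⁻ r : Ioi (0 : ℝ), ∫⁻ θ : Metric.sphere (0 : EuclideanSpace ℝ (Fin n)) 1,
        F ((r : ℝ) • (θ : EuclideanSpace ℝ (Fin n)))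
        ∂((volume : Measure (EuclideanSpace ℝ (Fin n))).toSphere)
        ∂(Measure.volumeIoiPow (Module.finrank ℝ (EuclideanSpace ℝ (Fin n)) - 1)) :=
        lintegral_prod_symm _ hmeas.aemeasurable
    _ = ∫⁻ r : Ioi (0 : ℝ), ENNReal.ofReal ((r : ℝ) ^ (n - 1)) *
        ∫⁻ θ : Metric.sphere (0 : EuclideanSpace ℝ (Fin n)) 1,
        F ((r : ℝ) • (θ : EuclideanSpace ℝ (Fin n)))
        ∂((volume : Measure (EuclideanSpace ℝ (Fin n))).toSphere)
        ∂(Measure.comap Subtype.val volume) := by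
        rw [finrank_euclideanSpace_fin]
        unfold Measure.volumeIoiPow
        rw [lintegral_withDensity_eq_lintegral_mul _ (by fun_prop) hinner]
        rfl
    _ = _ := lintegral_subtype_comap measurableSet_Ioi (fun r : ℝ => ENNReal.ofReal (r ^ (n - 1)) *
        ∫⁻ θ : Metric.sphere (0 : EuclideanSpace ℝ (Fin n)) 1,
        F (r • (θ : EuclideanSpace ℝ (Fin n)))
        ∂((volume : Measure (EuclideanSpace ℝ (Fin n))).toSphere))
end J7


theorem LH.sub {n : ℕ} {F G : EuclideanSpace ℝ (Fin n) → ℝ} {z : EuclideanSpace ℝ (Fin n)} {a b : ℝ}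
    (hF : LH F z a) (hG : LH G z b) : LH (fun z => F z - G z) z (a - b) := by
  obtain ⟨F1, c, h1, h2, h3⟩ := hF
  obtain ⟨G1, e, g1, g2, g3⟩ := hG
  refine ⟨fun i s => F1 i s - G1 i s, fun i => c i - e i, ?_, ?_, ?_⟩
  · intro i
    filter_upwards [h1 i, g1 i] with s hs hs'
    exact hs.sub hs'
  · intro i
    exact (h2 i).sub (g2 i)
  · rw [Finset.sum_sub_distrib, h3, g3]

theorem LH.const {n : ℕ} (c : ℝ) (z : EuclideanSpace ℝ (Fin n)) :
    LH (fun _ => c) z 0 := by
  refine ⟨fun _ _ => 0, fun _ => 0, ?_, ?_, by simp⟩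
  · intro i
    exact Eventually.of_forall fun s => hasDerivAt_const _ _
  · intro i
    exact hasDerivAt_const _ _

theorem LH.const_mul {n : ℕ} {F : EuclideanSpace ℝ (Fin n) → ℝ} {z : EuclideanSpace ℝ (Fin n)}
    {a : ℝ} (hF : LH F z a) (k : ℝ) : LH (fun z => k * F z) z (k * a) := by
  obtain ⟨F1, c, h1, h2, h3⟩ := hF
  refine ⟨fun i s => k * F1 i s, fun i => k * c i, ?_, ?_, ?_⟩
  · intro i
    filter_upwards [h1 i] with s hs
    exact hs.const_mul k
  · intro i
    exact (h2 i).const_mul k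
  · rw [← Finset.mul_sum, h3]

theorem LH.scale {n : ℕ} {F : EuclideanSpace ℝ (Fin n) → ℝ} {w : EuclideanSpace ℝ (Fin n)}
    {a : ℝ} (r : ℝ) (hF : LH F (r • w) a) : LH (fun z => F (r • z)) w (r ^ 2 * a) := by
  obtain ⟨F1, c, h1, h2, h3⟩ := hF
  have hlin : ∀ s : ℝ, HasDerivAt (fun s : ℝ => r * s) r s := by
    intro s; simpa using (hasDerivAt_id s).const_mul r
  refine ⟨fun i s => r * F1 i (r * s), fun i => r ^ 2 * c i, ?_, ?_, ?_⟩
  · intro i
    have ht : Tendsto (fun s : ℝ => r * s) (𝓝 0) (𝓝 0) := by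
      have : Continuous (fun s : ℝ => r * s) := by fun_prop
      simpa using this.tendsto 0
    filter_upwards [ht.eventually (h1 i)] with s hs
    have := HasDerivAt.comp s hs (hlin s)
    have he : (fun s : ℝ => F (r • (w + s • EuclideanSpace.single i (1:ℝ))))
        = (fun s : ℝ => F (r • w + s • EuclideanSpace.single i (1:ℝ))) ∘ (fun s : ℝ => r * s) := by
      funext s
      simp [smul_add, smul_smul]
    rw [he]
    exact this.congr_deriv (by ring)
  · intro i
    have h0 : HasDerivAt (F1 i) (c i) (r * 0) := by simpa using h2 i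
    have := (HasDerivAt.comp (0:ℝ) h0 (hlin 0)).const_mul r
    exact this.congr_deriv (by ring)
  · rw [← Finset.mul_sum, h3]

/-- total mass of the Poisson kernel -/
theorem sphere_mass {n : ℕ} (hn : 0 < n) (z : EuclideanSpace ℝ (Fin n)) (hz : ‖z‖ < 1) :
    ∫ θ : Metric.sphere (0 : EuclideanSpace ℝ (Fin n)) 1, K z (θ : EuclideanSpace ℝ (Fin n))
        ∂((volume : Measure (EuclideanSpace ℝ (Fin n))).toSphere)
      = ((volume : Measure (EuclideanSpace ℝ (Fin n))).toSphere).real univ := by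
  set U : EuclideanSpace ℝ (Fin n) → ℝ := fun z =>
    ∫ θ : Metric.sphere (0 : EuclideanSpace ℝ (Fin n)) 1, K z (θ : EuclideanSpace ℝ (Fin n))
        ∂((volume : Measure (EuclideanSpace ℝ (Fin n))).toSphere) with hU
  have hU0 : U 0 = ((volume : Measure (EuclideanSpace ℝ (Fin n))).toSphere).real univ := by
    have : ∀ θ : Metric.sphere (0 : EuclideanSpace ℝ (Fin n)) 1,
        K 0 (θ : EuclideanSpace ℝ (Fin n)) = 1 := by
      intro θ
      have h1 : ‖(θ : EuclideanSpace ℝ (Fin n))‖ = 1 := by simp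
      simp [K, h1]
    simp only [hU, this, integral_const, smul_eq_mul, mul_one]
  have hLU : ∀ z : EuclideanSpace ℝ (Fin n), ‖z‖ < 1 → LH U z 0 := by
    intro z hz
    have := lh_integral (n := n) (fun _ => (1:ℝ)) continuous_const z hz
    simpa [hU] using this
  have hCU : ContinuousOn U (Metric.ball 0 1) := by
    have := cont_integral (n := n) (fun _ => (1:ℝ)) continuous_const
    simpa [hU] using this
  have hrot : ∀ z z' : EuclideanSpace ℝ (Fin n), ‖z‖ = ‖z'‖ → U z = U z' := fun z z' h =>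
    int_K_rot z z' h
  rw [← hU0]
  change U z = U 0
  set r := ‖z‖ with hr
  have hr0 : 0 ≤ r := norm_nonneg z
  have key := max_principle hn (fun w => U (r • w) - U z) ?_ ?_ ?_ 0 (by simp)
  · simp only [smul_zero] at key
    linarith
  · refine ContinuousOn.sub ?_ continuousOn_const
    refine hCU.comp (by fun_prop) ?_
    intro w hw
    simp only [Metric.mem_ball, dist_zero_right] at hw ⊢
    rw [norm_smul, Real.norm_of_nonneg hr0]
    nlinarith [norm_nonneg w]
  · intro w hw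
    simp only [Metric.mem_ball, dist_zero_right] at hw
    have h1 : ‖r • w‖ < 1 := by
      rw [norm_smul, Real.norm_of_nonneg hr0]
      nlinarith [norm_nonneg w]
    have := (LH.scale r (hLU _ h1)).sub (LH.const (U z) w)
    simpa using this
  · intro ε hε
    have hcz : ContinuousAt (fun s : ℝ => U (s • z)) 1 := by
      have h1 : ContinuousAt U ((1:ℝ) • z) := by
        rw [one_smul]
        exact hCU.continuousAt (Metric.isOpen_ball.mem_nhds (by simpa using hz))
      exact ContinuousAt.comp (f := fun s : ℝ => s • z) h1 (by fun_prop)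
    rw [Metric.continuousAt_iff] at hcz
    obtain ⟨δ, hδ, hd⟩ := hcz ε hε
    refine ⟨1 - δ / 2, by linarith, ?_⟩
    intro w hw1 hw2
    have h1 : U (r • w) = U (‖w‖ • z) := by
      apply hrot
      rw [norm_smul, norm_smul, Real.norm_of_nonneg hr0, Real.norm_of_nonneg (norm_nonneg w), ← hr]
      ring
    have h2 := hd (x := ‖w‖) (by
      rw [Real.dist_eq, abs_lt]; constructor <;> linarith)
    simp only [one_smul] at h2
    rw [h1]
    rw [Real.dist_eq] at h2
    exact h2.le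

theorem K_continuousOn_left {n : ℕ} (x : EuclideanSpace ℝ (Fin n)) (s : Set (EuclideanSpace ℝ (Fin n)))
    (hs : ∀ w ∈ s, w ≠ x) (hx : x ≠ 0) : ContinuousOn (fun w => K w x) s := by
  unfold K
  apply ContinuousOn.div
  · fun_prop
  · fun_prop
  · intro w hw
    have h1 : ‖x‖ ≠ 0 := by simpa using hx
    have h2 : ‖x - w‖ ≠ 0 := by
      rw [norm_ne_zero_iff, sub_ne_zero]
      exact (hs w hw).symm
    positivity

/-- Chapman-Kolmogorov on the unit sphere -/
theorem sphere_ck {n : ℕ} (hn : 0 < n) (z x : EuclideanSpace ℝ (Fin n)) (hz : ‖z‖ < 1)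
    (hx : 1 < ‖x‖) :
    ∫ θ : Metric.sphere (0 : EuclideanSpace ℝ (Fin n)) 1,
        K z (θ : EuclideanSpace ℝ (Fin n)) * K (θ : EuclideanSpace ℝ (Fin n)) x
        ∂((volume : Measure (EuclideanSpace ℝ (Fin n))).toSphere)
      = ((volume : Measure (EuclideanSpace ℝ (Fin n))).toSphere).real univ * K z x := by
  have hx0 : x ≠ 0 := by
    rintro rfl; simp at hx; linarith
  have hcc : ContinuousOn (fun w : EuclideanSpace ℝ (Fin n) => K w x) (Metric.closedBall 0 1) := by
    apply K_continuousOn_left x _ _ hx0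
    rintro w hw rfl
    simp at hw; linarith
  have hcs : Continuous (fun θ : Metric.sphere (0 : EuclideanSpace ℝ (Fin n)) 1 =>
      K (θ : EuclideanSpace ℝ (Fin n)) x) := by
    have := hcc.mono (s := Metric.closedBall 0 1)
      (t := Metric.sphere (0 : EuclideanSpace ℝ (Fin n)) 1) Metric.sphere_subset_closedBall
    exact continuousOn_iff_continuous_domRestrict.1 this
  have key := max_principle hn (fun z => (∫ θ : Metric.sphere (0 : EuclideanSpace ℝ (Fin n)) 1,
        K z (θ : EuclideanSpace ℝ (Fin n)) * K (θ : EuclideanSpace ℝ (Fin n)) x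
        ∂((volume : Measure (EuclideanSpace ℝ (Fin n))).toSphere))
      - ((volume : Measure (EuclideanSpace ℝ (Fin n))).toSphere).real univ * K z x) ?_ ?_ ?_ z
      (by simpa using hz)
  · linarith
  · refine ContinuousOn.sub (cont_integral _ hcs) ?_
    exact continuousOn_const.mul (hcc.mono Metric.ball_subset_closedBall)
  · intro w hw
    simp only [Metric.mem_ball, dist_zero_right] at hw
    have h1 := lh_integral _ hcs w hw
    have h2 : LH (fun z => K z x) w 0 := lh_K w x (by rintro rfl; linarith)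
    have h3 := h1.sub (h2.const_mul (((volume : Measure (EuclideanSpace ℝ (Fin n))).toSphere).real univ))
    simpa using h3
  · intro ε hε
    exact boundary_values (fun w => K w x) hcc (fun z hz => sphere_mass hn z hz) ε hε

theorem K_smul {n : ℕ} (z w : EuclideanSpace ℝ (Fin n)) (r : ℝ) (hr : 0 < r) :
    K (r • z) (r • w) = (r ^ n)⁻¹ * K z w := by
  unfold K
  rw [← smul_sub, norm_smul, norm_smul, norm_smul, Real.norm_of_nonneg hr.le]
  rw [mul_pow, mul_pow, mul_pow, ← mul_sub]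
  have h1 : (r ^ 2 * ‖w‖ ^ 2 * (r ^ n * ‖w - z‖ ^ n)) = r ^ 2 * (r ^ n * (‖w‖ ^ 2 * ‖w - z‖ ^ n)) := by
    ring
  rw [h1, mul_div_mul_left _ _ (by positivity), div_mul_eq_div_div_swap]
  rw [div_div, mul_comm (‖w‖ ^ 2 * ‖w - z‖ ^ n) (r ^ n), ← div_div]
  ring

theorem K_nonneg {n : ℕ} (z w : EuclideanSpace ℝ (Fin n)) (h : ‖z‖ ≤ ‖w‖) : 0 ≤ K z w := by
  unfold K
  apply div_nonneg
  · have := pow_le_pow_left₀ (norm_nonneg z) h 2
    linarith
  · positivity

theorem measurable_K_right {n : ℕ} (z : EuclideanSpace ℝ (Fin n)) :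
    Measurable (fun w => K z w) := by
  unfold K
  fun_prop

theorem measurable_K_left {n : ℕ} (x : EuclideanSpace ℝ (Fin n)) :
    Measurable (fun w => K w x) := by
  unfold K
  fun_prop

theorem sphere_ck_r {n : ℕ} (hn : 0 < n) (z x : EuclideanSpace ℝ (Fin n)) (r : ℝ) (hr : 0 < r)
    (hz : ‖z‖ < r) (hx : r < ‖x‖) :
    ∫⁻ θ : Metric.sphere (0 : EuclideanSpace ℝ (Fin n)) 1,
        ENNReal.ofReal (K z (r • (θ : EuclideanSpace ℝ (Fin n)))) *
        ENNReal.ofReal (K (r • (θ : EuclideanSpace ℝ (Fin n))) x)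
        ∂((volume : Measure (EuclideanSpace ℝ (Fin n))).toSphere)
      = ENNReal.ofReal ((r ^ n)⁻¹) * (((volume : Measure (EuclideanSpace ℝ (Fin n))).toSphere) univ *
        ENNReal.ofReal (K z x)) := by
  set z' := r⁻¹ • z with hz'
  set x' := r⁻¹ • x with hx'
  have hzz : z = r • z' := by rw [hz', smul_smul, mul_inv_cancel₀ hr.ne', one_smul]
  have hxx : x = r • x' := by rw [hx', smul_smul, mul_inv_cancel₀ hr.ne', one_smul]
  have hz1 : ‖z'‖ < 1 := by
    rw [hz', norm_smul, norm_inv, Real.norm_of_nonneg hr.le, inv_mul_lt_iff₀ hr]; simpa using hz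
  have hx1 : 1 < ‖x'‖ := by
    rw [hx', norm_smul, norm_inv, Real.norm_of_nonneg hr.le, lt_inv_mul_iff₀ hr]; simpa using hx
  have hck := sphere_ck hn z' x' hz1 hx1
  have hnorm : ∀ θ : Metric.sphere (0 : EuclideanSpace ℝ (Fin n)) 1,
      ‖(θ : EuclideanSpace ℝ (Fin n))‖ = 1 := by intro θ; simp
  have hp1 : ∀ θ : Metric.sphere (0 : EuclideanSpace ℝ (Fin n)) 1,
      0 ≤ K z' (θ : EuclideanSpace ℝ (Fin n)) := fun θ => K_nonneg _ _ (by rw [hnorm]; exact hz1.le)
  have hp2 : ∀ θ : Metric.sphere (0 : EuclideanSpace ℝ (Fin n)) 1,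
      0 ≤ K (θ : EuclideanSpace ℝ (Fin n)) x' := fun θ => K_nonneg _ _ (by rw [hnorm]; exact hx1.le)
  have hrn : 0 < (r ^ n)⁻¹ := by positivity
  have hx0 : x' ≠ 0 := by
    rintro h; rw [h] at hx1; simp at hx1; linarith
  have e1 : ∀ θ : Metric.sphere (0 : EuclideanSpace ℝ (Fin n)) 1,
      ENNReal.ofReal (K z (r • (θ : EuclideanSpace ℝ (Fin n)))) *
        ENNReal.ofReal (K (r • (θ : EuclideanSpace ℝ (Fin n))) x)
      = ENNReal.ofReal ((r ^ n)⁻¹ * (r ^ n)⁻¹) *
        ENNReal.ofReal (K z' (θ : EuclideanSpace ℝ (Fin n)) * K (θ : EuclideanSpace ℝ (Fin n)) x') := by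
    intro θ
    rw [hzz, hxx, K_smul _ _ r hr, K_smul _ _ r hr,
      ← ENNReal.ofReal_mul (mul_nonneg hrn.le (hp1 θ)),
      ← ENNReal.ofReal_mul (by positivity)]
    congr 1; ring
  simp only [e1]
  have hcont : Continuous (fun θ : Metric.sphere (0 : EuclideanSpace ℝ (Fin n)) 1 =>
      K z' (θ : EuclideanSpace ℝ (Fin n)) * K (θ : EuclideanSpace ℝ (Fin n)) x') := by
    apply Continuous.mul
    · unfold K
      apply Continuous.div
      · fun_prop
      · fun_prop
      · intro θ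
        have h2 : ‖(θ : EuclideanSpace ℝ (Fin n)) - z'‖ ≠ 0 := by
          rw [norm_ne_zero_iff, sub_ne_zero]
          intro h
          have := hnorm θ
          rw [h] at this; linarith
        rw [hnorm θ]
        positivity
    · unfold K
      apply Continuous.div
      · fun_prop
      · fun_prop
      · intro θ
        have h1 : ‖x'‖ ≠ 0 := by simpa using hx0
        have h2 : ‖x' - (θ : EuclideanSpace ℝ (Fin n))‖ ≠ 0 := by
          rw [norm_ne_zero_iff, sub_ne_zero]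
          intro h
          have := hnorm θ
          rw [← h] at this; linarith
        positivity
  rw [lintegral_const_mul _ hcont.measurable.ennreal_ofReal]
  have hint : Integrable (fun θ : Metric.sphere (0 : EuclideanSpace ℝ (Fin n)) 1 =>
      K z' (θ : EuclideanSpace ℝ (Fin n)) * K (θ : EuclideanSpace ℝ (Fin n)) x')
      ((volume : Measure (EuclideanSpace ℝ (Fin n))).toSphere) := by
    exact hcont.integrable_of_hasCompactSupport (HasCompactSupport.of_compactSpace _)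
  rw [← ofReal_integral_eq_lintegral_ofReal hint (Eventually.of_forall fun θ => mul_nonneg (hp1 θ) (hp2 θ)),
    hck]
  have hKzx : K z x = (r ^ n)⁻¹ * K z' x' := by rw [hzz, hxx, K_smul _ _ r hr]
  rw [hKzx]
  rw [ENNReal.ofReal_mul measureReal_nonneg, ENNReal.ofReal_mul hrn.le, ENNReal.ofReal_mul hrn.le]
  rw [measureReal_def, ENNReal.ofReal_toReal (measure_ne_top _ _)]
  ring

theorem sphere_mass_r {n : ℕ} (hn : 0 < n) (z : EuclideanSpace ℝ (Fin n)) (r : ℝ) (hr : 0 < r)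
    (hz : ‖z‖ < r) :
    ∫⁻ θ : Metric.sphere (0 : EuclideanSpace ℝ (Fin n)) 1,
        ENNReal.ofReal (K z (r • (θ : EuclideanSpace ℝ (Fin n))))
        ∂((volume : Measure (EuclideanSpace ℝ (Fin n))).toSphere)
      = ENNReal.ofReal ((r ^ n)⁻¹) * ((volume : Measure (EuclideanSpace ℝ (Fin n))).toSphere) univ := by
  set z' := r⁻¹ • z with hz'
  have hzz : z = r • z' := by rw [hz', smul_smul, mul_inv_cancel₀ hr.ne', one_smul]
  have hz1 : ‖z'‖ < 1 := by
    rw [hz', norm_smul, norm_inv, Real.norm_of_nonneg hr.le, inv_mul_lt_iff₀ hr]; simpa using hz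
  have hck := sphere_mass hn z' hz1
  have hnorm : ∀ θ : Metric.sphere (0 : EuclideanSpace ℝ (Fin n)) 1,
      ‖(θ : EuclideanSpace ℝ (Fin n))‖ = 1 := by intro θ; simp
  have hp1 : ∀ θ : Metric.sphere (0 : EuclideanSpace ℝ (Fin n)) 1,
      0 ≤ K z' (θ : EuclideanSpace ℝ (Fin n)) := fun θ => K_nonneg _ _ (by rw [hnorm]; exact hz1.le)
  have hrn : 0 < (r ^ n)⁻¹ := by positivity
  have e1 : ∀ θ : Metric.sphere (0 : EuclideanSpace ℝ (Fin n)) 1,
      ENNReal.ofReal (K z (r • (θ : EuclideanSpace ℝ (Fin n))))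
      = ENNReal.ofReal ((r ^ n)⁻¹) * ENNReal.ofReal (K z' (θ : EuclideanSpace ℝ (Fin n))) := by
    intro θ
    rw [hzz, K_smul _ _ r hr, ← ENNReal.ofReal_mul hrn.le]
  simp only [e1]
  have hcont : Continuous (fun θ : Metric.sphere (0 : EuclideanSpace ℝ (Fin n)) 1 =>
      K z' (θ : EuclideanSpace ℝ (Fin n))) := by
    unfold K
    apply Continuous.div
    · fun_prop
    · fun_prop
    · intro θ
      have h2 : ‖(θ : EuclideanSpace ℝ (Fin n)) - z'‖ ≠ 0 := by
        rw [norm_ne_zero_iff, sub_ne_zero]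
        intro h
        have := hnorm θ
        rw [h] at this; linarith
      rw [hnorm θ]
      positivity
  rw [lintegral_const_mul _ hcont.measurable.ennreal_ofReal]
  have hint : Integrable (fun θ : Metric.sphere (0 : EuclideanSpace ℝ (Fin n)) 1 =>
      K z' (θ : EuclideanSpace ℝ (Fin n)))
      ((volume : Measure (EuclideanSpace ℝ (Fin n))).toSphere) :=
    hcont.integrable_of_hasCompactSupport (HasCompactSupport.of_compactSpace _)
  rw [← ofReal_integral_eq_lintegral_ofReal hint (Eventually.of_forall fun θ => hp1 θ), hck,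
    measureReal_def, ENNReal.ofReal_toReal (measure_ne_top _ _)]

/-- **Normalisation** of the Poisson kernel for radial weights. -/
theorem thick_mass {n : ℕ} (hn : 0 < n) (z : EuclideanSpace ℝ (Fin n)) (W : ℝ → ENNReal)
    (hW : Measurable W) (hsupp : ∀ s, W s ≠ 0 → ‖z‖ < s) :
    ∫⁻ w : EuclideanSpace ℝ (Fin n), W ‖w‖ * ENNReal.ofReal (K z w)
      = ∫⁻ w : EuclideanSpace ℝ (Fin n), W ‖w‖ * ENNReal.ofReal ((‖w‖ ^ n)⁻¹) := by
  rw [lintegral_polar hn (fun w => W ‖w‖ * ENNReal.ofReal (K z w)) (by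
      have := measurable_K_right z
      exact (hW.comp measurable_norm).mul this.ennreal_ofReal),
    lintegral_polar hn (fun w : EuclideanSpace ℝ (Fin n) => W ‖w‖ * ENNReal.ofReal ((‖w‖ ^ n)⁻¹)) (by
      exact (hW.comp measurable_norm).mul (by fun_prop))]
  apply setLIntegral_congr_fun measurableSet_Ioi
  intro r hr
  have hr' : 0 < r := hr
  have hnorm : ∀ θ : Metric.sphere (0 : EuclideanSpace ℝ (Fin n)) 1,
      ‖r • (θ : EuclideanSpace ℝ (Fin n))‖ = r := by
    intro θ; simp [norm_smul, abs_of_pos hr']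
  simp only [hnorm]
  congr 1
  by_cases hw : W r = 0
  · simp [hw]
  · rw [lintegral_const_mul _ (by
      have := measurable_K_right z
      exact (this.comp (by fun_prop)).ennreal_ofReal), sphere_mass_r hn z r hr' (hsupp r hw),
      lintegral_const]
    ring

/-- **Chapman-Kolmogorov** for radial weights. -/
theorem thick_ck {n : ℕ} (hn : 0 < n) (z x : EuclideanSpace ℝ (Fin n)) (W : ℝ → ENNReal)
    (hW : Measurable W) (hsupp : ∀ s, W s ≠ 0 → ‖z‖ < s ∧ s < ‖x‖) :
    ∫⁻ w : EuclideanSpace ℝ (Fin n), W ‖w‖ * ENNReal.ofReal (K z w) * ENNReal.ofReal (K w x)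
      = (∫⁻ w : EuclideanSpace ℝ (Fin n), W ‖w‖ * ENNReal.ofReal ((‖w‖ ^ n)⁻¹)) *
        ENNReal.ofReal (K z x) := by
  have m1 := (measurable_K_right z).ennreal_ofReal
  have m2 := (measurable_K_left x).ennreal_ofReal
  rw [lintegral_polar hn (fun w => W ‖w‖ * ENNReal.ofReal (K z w) * ENNReal.ofReal (K w x))
      (((hW.comp measurable_norm).mul m1).mul m2),
    lintegral_polar hn (fun w : EuclideanSpace ℝ (Fin n) => W ‖w‖ * ENNReal.ofReal ((‖w‖ ^ n)⁻¹))
      ((hW.comp measurable_norm).mul (by fun_prop))]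
  rw [← lintegral_mul_const _ (by
    refine Measurable.mul (by fun_prop) ?_
    refine Measurable.lintegral_prod_right' (f := fun p : ℝ × Metric.sphere (0 : EuclideanSpace ℝ (Fin n)) 1 =>
      W ‖p.1 • (p.2 : EuclideanSpace ℝ (Fin n))‖ *
        ENNReal.ofReal ((‖p.1 • (p.2 : EuclideanSpace ℝ (Fin n))‖ ^ n)⁻¹)) ?_
    refine Measurable.mul (hW.comp (by fun_prop)) (by fun_prop))]
  apply setLIntegral_congr_fun measurableSet_Ioi
  intro r hr
  have hr' : 0 < r := hr
  have hnorm : ∀ θ : Metric.sphere (0 : EuclideanSpace ℝ (Fin n)) 1,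
      ‖r • (θ : EuclideanSpace ℝ (Fin n))‖ = r := by
    intro θ; simp [norm_smul, abs_of_pos hr']
  simp only [hnorm]
  rw [mul_assoc]
  congr 1
  by_cases hw : W r = 0
  · simp [hw]
  · simp only [mul_assoc]
    rw [lintegral_const_mul _ (by
      exact (m1.comp (by fun_prop)).mul (m2.comp (by fun_prop))),
      sphere_ck_r hn z x r hr' (hsupp r hw).1 (hsupp r hw).2, lintegral_const]
    ring

end Pool.MFPoisson
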