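import Pool.Agent.Helper160.MF.Defs
import Pool.Agent.Helper567.MF.Poisson

/-!
The three transition facts `tr_mass`, `tr_start`, `tr_ck` for the thin shell chain
(from `Pool.MFPoisson.thick_mass` and `Pool.MFPoisson.thick_ck`).  The basic shell facts are by helper435.
-/

set_option autoImplicit false
open MeasureTheory Set Metric

namespace Pool.Agent.Helper567.MF
open Pool.Agent.Helper160.MF Pool.MFPoisson

namespace Basic


theorem qd_pos (d : ℕ) : 0 < qd d := Real.rpow_pos_of_pos (by norm_num) _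

theorem qd_pow (d : ℕ) (hd : 1 ≤ d) : qd d ^ d = 1 / 2 := by
  have hd0 : (d : ℝ) ≠ 0 := by
    have : 0 < d := hd
    exact_mod_cast this.ne'
  unfold qd
  rw [← Real.rpow_natCast, ← Real.rpow_mul (by norm_num), one_div_mul_cancel hd0, Real.rpow_one]

theorem qd_ge (d : ℕ) (hd : 1 ≤ d) : 1 - Real.log 2 / d ≤ qd d := by
  unfold qd
  rw [Real.rpow_def_of_pos (by norm_num)]
  have h1 := Real.add_one_le_exp (Real.log (1 / 2) * (1 / (d : ℝ)))
  have h2 : Real.log (1 / 2) = - Real.log 2 := by
    rw [one_div, Real.log_inv]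
  rw [h2] at h1 ⊢
  have h3 : -Real.log 2 * (1 / (d : ℝ)) = -(Real.log 2 / d) := by ring
  rw [h3] at h1 ⊢
  linarith

theorem qd_lt_one (d : ℕ) (hd : 1 ≤ d) : qd d < 1 := by
  have hd0 : (0 : ℝ) < d := by exact_mod_cast hd
  exact Real.rpow_lt_one (by norm_num) (by norm_num) (by positivity)

theorem measurableSet_shell (d : ℕ) (R : ℝ) : MeasurableSet (shell d R) := by
  unfold shell
  exact (measurableSet_lt measurable_const measurable_norm).inter
    (measurableSet_lt measurable_norm measurable_const)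

theorem volume_shell (d : ℕ) (hd : 1 ≤ d) (R : ℝ) (hR : 0 < R) :
    volume (shell d R) = volume (ball (0 : Eu d) R) / 2 := by
  have hq := qd_pos d
  have hq1 := qd_lt_one d hd
  have e1 : shell d R = ball (0 : Eu d) R \ closedBall (0 : Eu d) (qd d * R) := by
    ext x
    unfold shell
    simp only [mem_ofPred_eq, mem_sdiff, mem_ball_zero_iff, mem_closedBall_zero_iff, not_le]
    exact and_comm
  have hsub : closedBall (0 : Eu d) (qd d * R) ⊆ ball (0 : Eu d) R :=
    closedBall_subset_ball (by nlinarith)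
  have e2 : volume (closedBall (0 : Eu d) (qd d * R)) = volume (ball (0 : Eu d) R) / 2 := by
    rw [Measure.addHaar_closedBall _ _ (by positivity), Measure.addHaar_ball_of_pos _ _ hR,
      finrank_euclideanSpace_fin, mul_pow, qd_pow d hd]
    rw [ENNReal.ofReal_mul (by norm_num)]
    have : ENNReal.ofReal (1 / 2) = 2⁻¹ := by
      rw [one_div, ENNReal.ofReal_inv_of_pos (by norm_num)]
      simp
    rw [this, ENNReal.div_eq_inv_mul, mul_assoc]
  rw [e1, measure_sdiff hsub measurableSet_closedBall.nullMeasurableSet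
    (measure_closedBall_lt_top).ne, e2]
  exact ENNReal.sub_half (measure_ball_lt_top).ne

theorem lintegral_bs (d : ℕ) (hd : 1 ≤ d) (R : ℝ) (hR : 0 < R) (y : Eu d) :
    ∫⁻ x, bs d R (x - y) = 1 := by
  rw [lintegral_sub_right_eq_self (fun x => bs d R x) y]
  unfold bs
  have h1 : ∫⁻ x, (shell d R).indicator (fun _ => (volume (shell d R))⁻¹) x =
      (volume (shell d R))⁻¹ * volume (shell d R) :=
    lintegral_indicator_const (measurableSet_shell d R) _
  rw [h1]
  apply ENNReal.inv_mul_cancel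
  · rw [volume_shell d hd R hR]
    apply (ENNReal.div_pos _ (by norm_num)).ne'
    exact (measure_ball_pos _ _ hR).ne'
  · rw [volume_shell d hd R hR]
    exact (ENNReal.div_lt_top (measure_ball_lt_top).ne (by norm_num)).ne

end Basic

open Basic

theorem qd_ge_half (d : ℕ) (hd : 1 ≤ d) : 1 / 2 ≤ qd d := by
  have h1 := qd_pow d hd
  have h2 := qd_lt_one d hd
  have h3 := qd_pos d
  by_contra h
  push Not at h
  have h4 : qd d ^ d ≤ qd d ^ 1 := pow_le_pow_of_le_one h3.le h2.le hd
  rw [h1, pow_one] at h4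
  linarith

/-- radial profile of `bs`. -/
noncomputable def Bp (d : ℕ) (R s : ℝ) : ENNReal :=
  (Ioo (qd d * R) R).indicator (fun _ => (volume (shell d R))⁻¹) s

theorem measurable_Bp (d : ℕ) (R : ℝ) : Measurable (Bp d R) :=
  measurable_const.indicator measurableSet_Ioo

theorem bs_eq (d : ℕ) (R : ℝ) (x : Eu d) : bs d R x = Bp d R ‖x‖ := by
  unfold bs Bp shell
  by_cases h : qd d * R < ‖x‖ ∧ ‖x‖ < R
  · rw [indicator_of_mem (by exact h), indicator_of_mem (by exact h)]
  · rw [indicator_of_notMem (by exact h), indicator_of_notMem (by exact h)]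

theorem Bp_ne_zero {d : ℕ} {R s : ℝ} (h : Bp d R s ≠ 0) : qd d * R < s ∧ s < R := by
  unfold Bp at h
  by_contra h'
  exact h (indicator_of_notMem (fun hm : s ∈ Ioo (qd d * R) R => h' hm) _)

/-- the weight used for the shell of outer radius `R`. -/
noncomputable def Wp (d : ℕ) (R s : ℝ) : ENNReal := Bp d R s * ENNReal.ofReal (s ^ d)

theorem measurable_Wp (d : ℕ) (R : ℝ) : Measurable (Wp d R) :=
  (measurable_Bp d R).mul (by fun_prop)

theorem Wp_mul_inv (d : ℕ) (R : ℝ) (hR : 0 < R) (w : Eu d) :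
    Wp d R ‖w‖ * ENNReal.ofReal ((‖w‖ ^ d)⁻¹) = bs d R w := by
  unfold Wp
  rw [bs_eq]
  by_cases h : Bp d R ‖w‖ = 0
  · simp [h]
  · have h1 := Bp_ne_zero h
    have h2 := qd_pos d
    have h3 : 0 < ‖w‖ := lt_trans (by positivity) h1.1
    rw [mul_assoc, ← ENNReal.ofReal_mul (by positivity), mul_inv_cancel₀ (by positivity)]
    simp

theorem lintegral_bs0 (d : ℕ) (hd : 1 ≤ d) (R : ℝ) (hR : 0 < R) :
    ∫⁻ x : Eu d, bs d R x = 1 := by
  have := lintegral_bs d hd R hR 0
  simpa using this

theorem lintegral_Wp (d : ℕ) (hd : 1 ≤ d) (R : ℝ) (hR : 0 < R) :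
    ∫⁻ w : Eu d, Wp d R ‖w‖ * ENNReal.ofReal ((‖w‖ ^ d)⁻¹) = 1 := by
  simp only [Wp_mul_inv d R hR]
  exact lintegral_bs0 d hd R hR

theorem Pk_eq (d : ℕ) (x z : Eu d) : Pk d x z = ‖x‖ ^ d * K z x := by
  unfold Pk K
  rw [mul_div_assoc]

theorem measurable_bs (d : ℕ) (R : ℝ) : Measurable (bs d R) := by
  unfold bs
  exact measurable_const.indicator (measurableSet_shell d R)

theorem bs_mul_Pk (d : ℕ) (R : ℝ) (u v : Eu d) :
    bs d R u * ENNReal.ofReal (Pk d u v) = Wp d R ‖u‖ * ENNReal.ofReal (K v u) := by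
  rw [Pk_eq, ENNReal.ofReal_mul (by positivity), ← mul_assoc, bs_eq]
  rfl

/-- mass of the transition density -/
theorem tr_mass (d : ℕ) (hd : 1 ≤ d) (r R : ℝ) (hr : 0 < r) (hrR : r ≤ R / 64) (y z : Eu d) :
    ∫⁻ x, tr d r R y z x ≤ 1 := by
  have hR : 0 < R := by linarith
  by_cases h : z - y ∈ shell d r
  · have h1 : ∀ x, tr d r R y z x = Wp d R ‖x - y‖ * ENNReal.ofReal (K (z - y) (x - y)) := by
      intro x
      unfold tr
      rw [indicator_of_mem h, one_mul, bs_mul_Pk]
    simp only [h1]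
    rw [lintegral_sub_right_eq_self (fun u : Eu d => Wp d R ‖u‖ * ENNReal.ofReal (K (z - y) u)) y,
      thick_mass hd (z - y) (Wp d R) (measurable_Wp d R), lintegral_Wp d hd R hR]
    intro s hs
    have h2 : Bp d R s ≠ 0 := by
      intro h0; apply hs; simp [Wp, h0]
    have h3 := Bp_ne_zero h2
    have h4 : ‖z - y‖ < r := h.2
    have h5 := qd_ge_half d hd
    nlinarith
  · have h1 : ∀ x, tr d r R y z x = 0 := by
      intro x
      unfold tr
      rw [indicator_of_notMem h, zero_mul]
    simp [h1]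

theorem K_zero (d : ℕ) (w : Eu d) (hw : w ≠ 0) : K (0 : Eu d) w = (‖w‖ ^ d)⁻¹ := by
  have h : ‖w‖ ≠ 0 := by simpa using hw
  unfold K
  rw [norm_zero, sub_zero]
  field_simp
  ring

theorem ck_core (d : ℕ) (hd : 1 ≤ d) (s : ℝ) (hs : 0 < s) (v u : Eu d)
    (hv : ‖v‖ ≤ qd d * s) (hu : s ≤ ‖u‖) :
    ∫⁻ w, bs d s w * ENNReal.ofReal (Pk d w v) * ENNReal.ofReal (K w u)
      = ENNReal.ofReal (K v u) := by
  simp only [bs_mul_Pk]
  rw [thick_ck hd v u (Wp d s) (measurable_Wp d s), lintegral_Wp d hd s hs, one_mul]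
  intro t ht
  have h2 : Bp d s t ≠ 0 := by
    intro h0; apply ht; simp [Wp, h0]
  have h3 := Bp_ne_zero h2
  exact ⟨by linarith, by linarith⟩

theorem tr_start (d : ℕ) (hd : 1 ≤ d) (r R : ℝ) (hr : 0 < r) (hrR : r ≤ R / 64) (y x : Eu d) :
    bs d R (x - y) = ∫⁻ z, bs d r (z - y) * tr d r R y z x := by
  have hR : 0 < R := by linarith
  have hq := qd_ge_half d hd
  unfold tr
  rw [lintegral_sub_right_eq_self
    (fun v : Eu d => bs d r v * ((shell d r).indicator (fun _ => (1 : ENNReal)) v *
    (bs d R (x - y) * ENNReal.ofReal (Pk d (x - y) v)))) y]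
  set u := x - y with hu
  have e1 : ∀ v : Eu d, bs d r v * ((shell d r).indicator (fun _ => (1 : ENNReal)) v *
      (bs d R u * ENNReal.ofReal (Pk d u v)))
      = (bs d R u * ENNReal.ofReal (‖u‖ ^ d)) *
        (bs d r v * ENNReal.ofReal (Pk d v 0) * ENNReal.ofReal (K v u)) := by
    intro v
    by_cases hv : v ∈ shell d r
    · rw [indicator_of_mem hv]
      have hv0 : v ≠ 0 := by
        rintro rfl
        have := hv.1
        rw [norm_zero] at this
        nlinarith [qd_pos d]
      have h1 : Pk d v 0 = 1 := by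
        rw [Pk_eq, K_zero d v hv0, mul_inv_cancel₀]
        have : ‖v‖ ≠ 0 := by simpa using hv0
        positivity
      rw [h1, Pk_eq, ENNReal.ofReal_mul (by positivity)]
      simp only [ENNReal.ofReal_one]
      ring
    · have : bs d r v = 0 := by
        unfold bs; exact indicator_of_notMem hv _
      simp [this]
  simp only [e1]
  by_cases hb : bs d R u = 0
  · simp [hb]
  · have hB : Bp d R ‖u‖ ≠ 0 := by rwa [bs_eq] at hb
    have h3 := Bp_ne_zero hB
    have hu1 : r ≤ ‖u‖ := by nlinarith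
    have hu0 : u ≠ 0 := by
      rintro h; rw [h, norm_zero] at hu1; linarith
    have hm : Measurable (fun v : Eu d => bs d r v * ENNReal.ofReal (Pk d v 0) * ENNReal.ofReal (K v u)) := by
      have h1 : Measurable (fun v : Eu d => Pk d v 0) := by
        simp only [Pk_eq]
        exact (by fun_prop : Measurable fun v : Eu d => ‖v‖ ^ d).mul (measurable_K_right 0)
      exact ((measurable_bs d r).mul h1.ennreal_ofReal).mul (measurable_K_left u).ennreal_ofReal
    rw [lintegral_const_mul _ hm, ck_core d hd r hr 0 u (by rw [norm_zero]; have := qd_pos d; positivity) hu1,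
      K_zero d u hu0, mul_assoc, ← ENNReal.ofReal_mul (by positivity), mul_inv_cancel₀]
    · simp
    · have : ‖u‖ ≠ 0 := by simpa using hu0
      positivity

theorem tr_ck (d : ℕ) (hd : 1 ≤ d) (r s R : ℝ) (hr : 0 < r) (hrs : r ≤ s / 64) (hsR : s ≤ R / 64)
    (y z x : Eu d) :
    tr d r R y z x = ∫⁻ w, tr d r s y z w * tr d s R y w x := by
  have hs : 0 < s := by linarith
  have hR : 0 < R := by linarith
  have hq := qd_ge_half d hd
  set v := z - y with hv
  set u := x - y with hu
  have e0 : ∀ w, tr d r s y z w * tr d s R y w x =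
      ((shell d r).indicator (fun _ => (1 : ENNReal)) v * (bs d R u * ENNReal.ofReal (‖u‖ ^ d))) *
        (bs d s (w - y) * ENNReal.ofReal (Pk d (w - y) v) * ENNReal.ofReal (K (w - y) u)) := by
    intro w
    unfold tr
    rw [← hv, ← hu]
    by_cases hw : w - y ∈ shell d s
    · rw [indicator_of_mem hw, Pk_eq d u (w - y), ENNReal.ofReal_mul (by positivity)]
      ring
    · have : bs d s (w - y) = 0 := by
        unfold bs; exact indicator_of_notMem hw _
      simp [this]
  simp only [e0]
  unfold tr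
  rw [← hv, ← hu]
  by_cases hvs : v ∈ shell d r
  · rw [indicator_of_mem hvs]
    by_cases hb : bs d R u = 0
    · simp [hb]
    · have hB : Bp d R ‖u‖ ≠ 0 := by rwa [bs_eq] at hb
      have h3 := Bp_ne_zero hB
      have hu1 : s ≤ ‖u‖ := by nlinarith
      have hv1 : ‖v‖ ≤ qd d * s := by
        have : ‖v‖ < r := hvs.2
        nlinarith
      have hm : Measurable (fun w : Eu d => bs d s w * ENNReal.ofReal (Pk d w v) * ENNReal.ofReal (K w u)) := by
        have h1 : Measurable (fun w : Eu d => Pk d w v) := by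
          simp only [Pk_eq]
          exact (by fun_prop : Measurable fun w : Eu d => ‖w‖ ^ d).mul (measurable_K_right v)
        exact ((measurable_bs d s).mul h1.ennreal_ofReal).mul (measurable_K_left u).ennreal_ofReal
      rw [lintegral_sub_right_eq_self
        (fun w : Eu d => (1 * (bs d R u * ENNReal.ofReal (‖u‖ ^ d))) *
          (bs d s w * ENNReal.ofReal (Pk d w v) * ENNReal.ofReal (K w u))) y,
        lintegral_const_mul _ hm, ck_core d hd s hs v u hv1 hu1, Pk_eq,
        ENNReal.ofReal_mul (by positivity)]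
      ring
  · rw [indicator_of_notMem hvs]
    simp

end Pool.Agent.Helper567.MF
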