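import Pool.Agent.Helper567.MF.Tr

/-! The transition facts for arbitrary disjoint shells `r ≤ qd d * R`. -/

set_option autoImplicit false
open MeasureTheory Set Metric

namespace Pool.Agent.Helper567.MF

open Pool.Agent.Helper160.MF
open Pool.MFPoisson Pool.Agent.Helper567.MF.Basic

theorem pos_of_le_qd (d : ℕ) (r R : ℝ) (hr : 0 < r) (h : r ≤ qd d * R) : 0 < R := by
  by_contra hR
  push Not at hR
  have := qd_pos d
  nlinarith

/-- mass of the transition density -/
theorem tr_mass_g (d : ℕ) (hd : 1 ≤ d) (r R : ℝ) (hr : 0 < r) (hrR : r ≤ qd d * R) (y z : Eu d) :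
    ∫⁻ x, tr d r R y z x ≤ 1 := by
  have hR : 0 < R := pos_of_le_qd d r R hr hrR
  by_cases h : z - y ∈ shell d r
  · have h1 : ∀ x, tr d r R y z x = Wp d R ‖x - y‖ * ENNReal.ofReal (K (z - y) (x - y)) := by
      intro x
      unfold tr
      rw [indicator_of_mem h, one_mul, bs_mul_Pk]
    simp only [h1]
    rw [lintegral_sub_right_eq_self (fun u : Eu d => Wp d R ‖u‖ * ENNReal.ofReal (K (z - y) u)) y,
      thick_mass hd (z - y) (Wp d R) (measurable_Wp d R), lintegral_Wp d hd R hR]
    intro s hs
    have h2 : Bp d R s ≠ 0 := by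
      intro h0; apply hs; simp [Wp, h0]
    have h3 := Bp_ne_zero h2
    have h4 : ‖z - y‖ < r := h.2
    linarith
  · have h1 : ∀ x, tr d r R y z x = 0 := by
      intro x
      unfold tr
      rw [indicator_of_notMem h, zero_mul]
    simp [h1]

theorem tr_start_g (d : ℕ) (hd : 1 ≤ d) (r R : ℝ) (hr : 0 < r) (hrR : r ≤ qd d * R) (y x : Eu d) :
    bs d R (x - y) = ∫⁻ z, bs d r (z - y) * tr d r R y z x := by
  have hR : 0 < R := pos_of_le_qd d r R hr hrR
  have hq := qd_ge_half d hd
  unfold tr
  rw [lintegral_sub_right_eq_self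
    (fun v : Eu d => bs d r v * ((shell d r).indicator (fun _ => (1 : ENNReal)) v *
    (bs d R (x - y) * ENNReal.ofReal (Pk d (x - y) v)))) y]
  set u := x - y with hu
  have e1 : ∀ v : Eu d, bs d r v * ((shell d r).indicator (fun _ => (1 : ENNReal)) v *
      (bs d R u * ENNReal.ofReal (Pk d u v)))
      = (bs d R u * ENNReal.ofReal (‖u‖ ^ d)) *
        (bs d r v * ENNReal.ofReal (Pk d v 0) * ENNReal.ofReal (K v u)) := by
    intro v
    by_cases hv : v ∈ shell d r
    · rw [indicator_of_mem hv]
      have hv0 : v ≠ 0 := by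
        rintro rfl
        have := hv.1
        rw [norm_zero] at this
        nlinarith [qd_pos d]
      have h1 : Pk d v 0 = 1 := by
        rw [Pk_eq, K_zero d v hv0, mul_inv_cancel₀]
        have : ‖v‖ ≠ 0 := by simpa using hv0
        positivity
      rw [h1, Pk_eq, ENNReal.ofReal_mul (by positivity)]
      simp only [ENNReal.ofReal_one]
      ring
    · have : bs d r v = 0 := by
        unfold bs; exact indicator_of_notMem hv _
      simp [this]
  simp only [e1]
  by_cases hb : bs d R u = 0
  · simp [hb]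
  · have hB : Bp d R ‖u‖ ≠ 0 := by rwa [bs_eq] at hb
    have h3 := Bp_ne_zero hB
    have hu1 : r ≤ ‖u‖ := by linarith
    have hu0 : u ≠ 0 := by
      rintro h; rw [h, norm_zero] at hu1; linarith
    have hm : Measurable (fun v : Eu d => bs d r v * ENNReal.ofReal (Pk d v 0) * ENNReal.ofReal (K v u)) := by
      have h1 : Measurable (fun v : Eu d => Pk d v 0) := by
        simp only [Pk_eq]
        exact (by fun_prop : Measurable fun v : Eu d => ‖v‖ ^ d).mul (measurable_K_right 0)
      exact ((measurable_bs d r).mul h1.ennreal_ofReal).mul (measurable_K_left u).ennreal_ofReal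
    rw [lintegral_const_mul _ hm, ck_core d hd r hr 0 u (by rw [norm_zero]; have := qd_pos d; positivity) hu1,
      K_zero d u hu0, mul_assoc, ← ENNReal.ofReal_mul (by positivity), mul_inv_cancel₀]
    · simp
    · have : ‖u‖ ≠ 0 := by simpa using hu0
      positivity

theorem tr_ck_g (d : ℕ) (hd : 1 ≤ d) (r s R : ℝ) (hr : 0 < r) (hrs : r ≤ qd d * s) (hsR : s ≤ qd d * R)
    (y z x : Eu d) :
    tr d r R y z x = ∫⁻ w, tr d r s y z w * tr d s R y w x := by
  have hs : 0 < s := pos_of_le_qd d r s hr hrs
  have hR : 0 < R := pos_of_le_qd d s R hs hsR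
  have hq := qd_ge_half d hd
  set v := z - y with hv
  set u := x - y with hu
  have e0 : ∀ w, tr d r s y z w * tr d s R y w x =
      ((shell d r).indicator (fun _ => (1 : ENNReal)) v * (bs d R u * ENNReal.ofReal (‖u‖ ^ d))) *
        (bs d s (w - y) * ENNReal.ofReal (Pk d (w - y) v) * ENNReal.ofReal (K (w - y) u)) := by
    intro w
    unfold tr
    rw [← hv, ← hu]
    by_cases hw : w - y ∈ shell d s
    · rw [indicator_of_mem hw, Pk_eq d u (w - y), ENNReal.ofReal_mul (by positivity)]
      ring
    · have : bs d s (w - y) = 0 := by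
        unfold bs; exact indicator_of_notMem hw _
      simp [this]
  simp only [e0]
  unfold tr
  rw [← hv, ← hu]
  by_cases hvs : v ∈ shell d r
  · rw [indicator_of_mem hvs]
    by_cases hb : bs d R u = 0
    · simp [hb]
    · have hB : Bp d R ‖u‖ ≠ 0 := by rwa [bs_eq] at hb
      have h3 := Bp_ne_zero hB
      have hu1 : s ≤ ‖u‖ := by linarith
      have hv1 : ‖v‖ ≤ qd d * s := by
        have : ‖v‖ < r := hvs.2
        linarith
      have hm : Measurable (fun w : Eu d => bs d s w * ENNReal.ofReal (Pk d w v) * ENNReal.ofReal (K w u)) := by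
        have h1 : Measurable (fun w : Eu d => Pk d w v) := by
          simp only [Pk_eq]
          exact (by fun_prop : Measurable fun w : Eu d => ‖w‖ ^ d).mul (measurable_K_right v)
        exact ((measurable_bs d s).mul h1.ennreal_ofReal).mul (measurable_K_left u).ennreal_ofReal
      rw [lintegral_sub_right_eq_self
        (fun w : Eu d => (1 * (bs d R u * ENNReal.ofReal (‖u‖ ^ d))) *
          (bs d s w * ENNReal.ofReal (Pk d w v) * ENNReal.ofReal (K w u))) y,
        lintegral_const_mul _ hm, ck_core d hd s hs v u hv1 hu1, Pk_eq,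
        ENNReal.ofReal_mul (by positivity)]
      ring
  · rw [indicator_of_notMem hvs]
    simp

end Pool.Agent.Helper567.MF
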